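import Pool.Agent.Lib.MP_2f2443_an.IP.Stm

/-!
# MP_2f2443_an, project IP: choice of the polydisc
-/

set_option autoImplicit false

namespace Pool.Agent.MP_2f2443_an.IP

open Filter Topology

/-- the zero of `F (x₀, ·)` is isolated -/
private theorem ch_iso (F : ℂ × ℂ → ℂ) (x₀ y₀ : ℂ) (hF : Differentiable ℂ F)
    (hne : ∃ y, F (x₀, y) ≠ 0) : ∀ᶠ y in 𝓝[≠] y₀, F (x₀, y) ≠ 0 := by
  have hg : Differentiable ℂ (fun y => F (x₀, y)) :=
    hF.comp ((differentiable_const x₀).prodMk differentiable_id)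
  have han : AnalyticOnNhd ℂ (fun y => F (x₀, y)) Set.univ :=
    (hg.differentiableOn).analyticOnNhd isOpen_univ
  rcases (han y₀ (Set.mem_univ _)).eventually_eq_zero_or_eventually_ne_zero with h | h
  · exfalso
    obtain ⟨y, hy⟩ := hne
    have h1 := han.eqOn_zero_of_preconnected_of_eventuallyEq_zero isPreconnected_univ
      (Set.mem_univ y₀) h
    exact hy (h1 (Set.mem_univ y))
  · exact h

/-- no zeros near a compact set without zeros -/
private theorem ch_comp (F : ℂ × ℂ → ℂ) (x₀ : ℂ) (hF : Differentiable ℂ F) (K : Set ℂ)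
    (hK : IsCompact K) (h0 : ∀ y ∈ K, F (x₀, y) ≠ 0) :
    ∃ r > 0, ∀ x ∈ Metric.ball x₀ r, ∀ y ∈ K, F (x, y) ≠ 0 := by
  have h1 : ∀ᶠ x in 𝓝 x₀, ∀ y ∈ K, F (x, y) ≠ 0 := by
    apply hK.eventually_forall_of_forall_eventually
    intro y hy
    have h2 : ContinuousAt F (x₀, y) := hF.continuous.continuousAt
    exact h2.eventually_ne (h0 y hy)
  obtain ⟨r, hr, h2⟩ := Metric.eventually_nhds_iff_ball.1 h1
  exact ⟨r, hr, h2⟩

theorem p_ch : S_ch := by
  intro F x₀ y₀ hF _ hne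
  have h1 := ch_iso F x₀ y₀ hF hne
  rw [eventually_nhdsWithin_iff] at h1
  obtain ⟨R', hR', h2⟩ := Metric.eventually_nhds_iff_ball.1 h1
  have hR : ∀ y ∈ Metric.closedBall y₀ (R' / 2), y ≠ y₀ → F (x₀, y) ≠ 0 := by
    intro y hy hyy
    refine h2 y ?_ hyy
    rw [Metric.mem_closedBall] at hy
    rw [Metric.mem_ball]
    linarith
  have hR0 : 0 < R' / 2 := by linarith
  refine ⟨R' / 2, hR0, ?_, ?_, ?_⟩
  · intro y hy h0
    by_contra hyy
    exact hR y hy hyy h0
  · refine ch_comp F x₀ hF (Metric.sphere y₀ (R' / 2)) (isCompact_sphere _ _) ?_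
    intro y hy
    refine hR y (Metric.sphere_subset_closedBall hy) ?_
    rintro rfl
    rw [Metric.mem_sphere, dist_self] at hy
    linarith
  · intro ε hε
    obtain ⟨δ, hδ, h3⟩ := ch_comp F x₀ hF (Metric.closedBall y₀ (R' / 2) \ Metric.ball y₀ ε)
      ((isCompact_closedBall _ _).diff Metric.isOpen_ball) (by
        rintro y ⟨hy, hy'⟩
        refine hR y hy ?_
        rintro rfl
        exact hy' (Metric.mem_ball_self hε))
    refine ⟨δ, hδ, ?_⟩
    intro x hx y hy h0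
    by_contra hyy
    exact h3 x hx y ⟨hy, hyy⟩ h0

end Pool.Agent.MP_2f2443_an.IP
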