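import Pool.Agent.Lib.MP_2f2443_an.IP.Stm

/-!
# MP_2f2443_an, project IP: piece ci
-/

set_option autoImplicit false

namespace Pool.Agent.MP_2f2443_an.IP

theorem p_ci : S_ci := by
  intro k g hg
  obtain ⟨hc, hper, him⟩ := hg
  have key : ∀ x, g (x + g x) = g x + VR k (x + g x) := by
    intro x
    have h1 : SMR k (x, g x) ∈ SMR k '' {P : ℝ × ℝ | P.2 = g P.1} :=
      ⟨(x, g x), rfl, rfl⟩
    rw [him] at h1
    have h2 : g x + VR k (x + g x) = g (x + g x) := h1
    exact h2.symm
  have hcont : Continuous fun x => x + g x := continuous_id.add hc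
  have hinj : Function.Injective fun x => x + g x := by
    intro x x' hxx
    have hxx' : x + g x = x' + g x' := hxx
    have h1 := key x
    have h2 := key x'
    rw [hxx'] at h1
    linarith
  refine ⟨hcont, ?_, ?_, ?_⟩
  · rcases hcont.strictMono_of_inj hinj with h | h
    · exact h
    · exfalso
      have h1 : (1 : ℝ) + g 1 < 0 + g 0 := h (zero_lt_one)
      have h2 := hper 0
      rw [zero_add] at h2
      linarith
  · intro x
    show x + 1 + g (x + 1) = x + g x + 1
    rw [hper]
    ring
  · intro x
    show x + g x + g (x + g x) = 2 * (x + g x) - x + VR k (x + g x)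
    rw [key]
    ring

end Pool.Agent.MP_2f2443_an.IP
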