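import Pool.Agent.Lib.MP_2f2443_an.IP.Stm

/-!
# MP_2f2443_an, project IP: piece co (combinatorics of `mixed`)
-/

set_option autoImplicit false

namespace Pool.Agent.MP_2f2443_an.IP

open Finset

private lemma co_term {m : ℕ} (a b : Fin m → ℂ) (A : Finset (Fin m))
    (h : (∏ i ∈ A, b i) * ∏ i ∈ univ \ A, a i ≠ 0) : (univ.filter fun i => a i = 0) ⊆ A := by
  intro i hi
  by_contra hA
  apply h
  have h1 : ∏ i ∈ univ \ A, a i = 0 :=
    Finset.prod_eq_zero (mem_sdiff.2 ⟨mem_univ i, hA⟩) (mem_filter.1 hi).2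
  rw [h1, mul_zero]

private lemma co_lt {m : ℕ} (a b : Fin m → ℂ) (j : ℕ)
    (hj : j < (univ.filter fun i => a i = 0).card) : mixed a b j = 0 := by
  unfold mixed
  refine Finset.sum_eq_zero fun A hA => ?_
  by_contra h
  have h1 := card_le_card (co_term a b A h)
  rw [(mem_powersetCard.1 hA).2] at h1
  omega

private lemma co_eq {m : ℕ} (a b : Fin m → ℂ) :
    mixed a b (univ.filter fun i => a i = 0).card =
      (∏ i ∈ univ.filter (fun i => a i = 0), b i) *
        ∏ i ∈ univ \ univ.filter (fun i => a i = 0), a i := by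
  unfold mixed
  refine Finset.sum_eq_single_of_mem _ (mem_powersetCard.2 ⟨subset_univ _, rfl⟩) fun A hA hne => ?_
  by_contra h
  apply hne
  exact (eq_of_subset_of_card_le (co_term a b A h) (mem_powersetCard.1 hA).2.le).symm

/-- Combinatorics of `mixed`. -/
theorem p_co : S_co := by
  intro m a J hlt hne
  have h1 : ∏ i ∈ univ \ univ.filter (fun i => a i = 0), a i ≠ 0 := by
    refine Finset.prod_ne_zero_iff.2 fun i hi h0 => ?_
    exact (mem_sdiff.1 hi).2 (mem_filter.2 ⟨mem_univ i, h0⟩)
  have h2 : mixed a (fun _ => 1) (univ.filter fun i => a i = 0).card =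
      ∏ i ∈ univ \ univ.filter (fun i => a i = 0), a i := by
    rw [co_eq]
    simp
  have h3 : (univ.filter fun i => a i = 0).card = J := by
    rcases lt_trichotomy (univ.filter fun i => a i = 0).card J with h | h | h
    · exact absurd (hlt _ h) (h2 ▸ h1)
    · exact h
    · exact absurd (co_lt a (fun _ => 1) J h) hne
  refine ⟨h3, fun b => ?_⟩
  rw [← h3, co_eq, h2]

end Pool.Agent.MP_2f2443_an.IP
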