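import Pool.Agent.Lib.MP_2f2443_an.IP.Stm

/-!
# MP_2f2443_an, piece cr: coercivity
-/

set_option autoImplicit false

namespace Pool.Agent.MP_2f2443_an.IP

private theorem cr_im (hvb : S_vb) {k : ℂ} (hk : k ≠ 0) {z : ℂ} {M : ℝ} (h : ‖VC k z‖ ≤ M) :
    z.im ^ 2 ≤ 4 * Real.pi / ‖k‖ * M := by
  have hk' : 0 < ‖k‖ := norm_pos_iff.2 hk
  have hpi := Real.pi_pos
  have hpi3 := Real.pi_gt_three
  have h1 := (hvb k z).trans h
  have h2 : Real.exp (2 * Real.pi * |z.im|) - 1 ≤ 4 * Real.pi / ‖k‖ * M := by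
    have h3 := mul_le_mul_of_nonneg_left h1 (show 0 ≤ 4 * Real.pi / ‖k‖ by positivity)
    have h4 : 4 * Real.pi / ‖k‖ *
        (‖k‖ / (4 * Real.pi) * (Real.exp (2 * Real.pi * |z.im|) - 1)) =
        Real.exp (2 * Real.pi * |z.im|) - 1 := by
      field_simp
    linarith
  have h5 := Real.quadratic_le_exp_of_nonneg (x := 2 * Real.pi * |z.im|) (by positivity)
  have h6 : (2 * Real.pi * |z.im|) ^ 2 = 4 * Real.pi ^ 2 * z.im ^ 2 := by
    rw [mul_pow, mul_pow, sq_abs]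
    ring
  have h7 : 0 ≤ 2 * Real.pi * |z.im| := by positivity
  have h9 : 1 ≤ 2 * Real.pi ^ 2 := by nlinarith
  have h8 : z.im ^ 2 ≤ 2 * Real.pi ^ 2 * z.im ^ 2 := le_mul_of_one_le_left (sq_nonneg _) h9
  nlinarith

theorem p_cr : S_cr := by
  intro hvb _ k hk q hq p r c
  have hk' : 0 < ‖k‖ := norm_pos_iff.2 hk
  have hpi := Real.pi_pos
  obtain ⟨C1, hC⟩ : ∃ C1 : ℝ, C1 = 4 * Real.pi / ‖k‖ := ⟨_, rfl⟩
  have hC1 : 0 < C1 := by
    rw [hC]
    positivity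
  obtain ⟨R, hR⟩ : ∃ R : ℝ, R = |(r : ℝ)| := ⟨_, rfl⟩
  have hR0 : 0 ≤ R := by
    rw [hR]
    exact abs_nonneg _
  obtain ⟨α, hα⟩ : ∃ α : ℝ, α = (8 * q + 4) * (2 * C1) := ⟨_, rfl⟩
  obtain ⟨β, hβ⟩ : ∃ β : ℝ, β = (8 * q + 4) * (C1 * R) + 2 * |c| := ⟨_, rfl⟩
  have hα0 : 0 ≤ α := by
    rw [hα]
    positivity
  have hβ0 : 0 ≤ β := by
    rw [hβ]
    positivity
  refine ⟨(α + β + 1) + C1 * (2 * (α + β + 1) + R) + 1, fun P hP hc => ?_⟩
  obtain ⟨x, hx⟩ : ∃ x : ℕ → ℂ, ∀ n, x n = ((SMC k)^[n] P).1 := ⟨_, fun _ => rfl⟩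
  obtain ⟨y, hy⟩ : ∃ y : ℕ → ℂ, ∀ n, y n = ((SMC k)^[n] P).2 := ⟨_, fun _ => rfl⟩
  have hx0 : x 0 = P.1 := hx 0
  have hy0 : y 0 = P.2 := hy 0
  have hxs : ∀ n, x (n + 1) = x n + y n := by
    intro n
    rw [hx, hx, hy, Function.iterate_succ_apply']
    rfl
  have hys : ∀ n, y (n + 1) = y n + VC k (x (n + 1)) := by
    intro n
    rw [hxs, hx, hy, hy, Function.iterate_succ_apply']
    rfl
  have hP' : (SMC k)^[q] P = (P.1 + (p : ℂ), P.2 + (r : ℂ)) := hP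
  have hxq : x q = P.1 + (p : ℂ) := by
    rw [hx, hP']
  have hyq : y q = P.2 + (r : ℂ) := by
    rw [hy, hP']
  obtain ⟨n0, hn0, hmax⟩ := Finset.exists_max_image (Finset.range q) (fun n => ‖y n‖)
    ⟨0, Finset.mem_range.2 hq⟩
  rw [Finset.mem_range] at hn0
  obtain ⟨Δ, hΔ⟩ : ∃ Δ : ℝ, Δ = ‖y n0‖ := ⟨_, rfl⟩
  have hΔ0 : 0 ≤ Δ := by
    rw [hΔ]
    exact norm_nonneg _
  have hyn : ∀ n < q, ‖y n‖ ≤ Δ := by
    intro n hn
    rw [hΔ]
    exact hmax n (Finset.mem_range.2 hn)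
  have hrn : ‖(r : ℂ)‖ = R := by
    rw [hR, Complex.norm_intCast]
  have hV : ∀ n < q, ‖VC k (x (n + 1))‖ ≤ 2 * Δ + R := by
    intro n hn
    have e : VC k (x (n + 1)) = y (n + 1) - y n := by
      rw [hys]
      ring
    rw [e]
    have h1 := norm_sub_le (y (n + 1)) (y n)
    have h2 := hyn n hn
    have h3 : ‖y (n + 1)‖ ≤ Δ + R := by
      rcases Nat.lt_or_ge (n + 1) q with h | h
      · have := hyn _ h
        linarith
      · have e' : n + 1 = q := by omega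
        rw [e', hyq]
        have h4 := norm_add_le P.2 (r : ℂ)
        have h5 := hyn 0 hq
        rw [hy0] at h5
        rw [hrn] at h4
        linarith
    linarith
  obtain ⟨W, hW⟩ : ∃ W : ℝ, W = C1 * (2 * Δ + R) := ⟨_, rfl⟩
  have him1 : ∀ n < q, (x (n + 1)).im ^ 2 ≤ W := by
    intro n hn
    rw [hW, hC]
    exact cr_im hvb hk (hV n hn)
  have him0 : (x 0).im ^ 2 ≤ W := by
    have h1 := him1 (q - 1) (by omega)
    rw [Nat.sub_add_cancel hq, hxq, Complex.add_im, Complex.intCast_im, add_zero, ← hx0] at h1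
    exact h1
  have him : ∀ n ≤ q, (x n).im ^ 2 ≤ W := by
    intro n hn
    rcases n with _ | n
    · exact him0
    · exact him1 n (by omega)
  have hW0 : 0 ≤ W := (sq_nonneg _).trans him0
  have hyim : ∀ n < q, (y n).im ^ 2 ≤ 4 * W := by
    intro n hn
    have e : (y n).im = (x (n + 1)).im - (x n).im := by
      rw [hxs, Complex.add_im]
      ring
    have h1 := him (n + 1) (by omega)
    have h2 := him n (by omega)
    rw [e]
    nlinarith [sq_nonneg ((x (n + 1)).im + (x n).im)]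
  have hpsi : psi k q P ≤ ∑ n ∈ Finset.range q,
      (4 * W - if n = n0 then (y n0).re ^ 2 / 2 else 0) := by
    unfold psi
    apply Finset.sum_le_sum
    intro n hn
    rw [Finset.mem_range] at hn
    rw [← hy]
    have h1 := hyim n hn
    split_ifs with h
    · subst h
      linarith
    · have := sq_nonneg (y n).re
      linarith
  rw [Finset.sum_sub_distrib, Finset.sum_const, Finset.card_range, nsmul_eq_mul,
    Finset.sum_ite_eq' (Finset.range q) n0, if_pos (Finset.mem_range.2 hn0)] at hpsi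
  have hre : (y n0).re ^ 2 = Δ ^ 2 - (y n0).im ^ 2 := by
    rw [hΔ, Complex.sq_norm, Complex.normSq_apply]
    ring
  have h1 := hyim n0 hn0
  have h2 : Δ ^ 2 ≤ α * Δ + β := by
    have h3 : c ≤ q * (4 * W) - (Δ ^ 2 - 4 * W) / 2 := by
      linarith
    have h4 := neg_abs_le c
    have h5 : (8 * (q : ℝ) + 4) * W = α * Δ + (8 * q + 4) * (C1 * R) := by
      rw [hW, hα]
      ring
    rw [hβ]
    linarith
  have h3 : Δ ≤ α + β + 1 := by
    by_contra hne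
    push Not at hne
    nlinarith
  have h4 : W ≤ C1 * (2 * (α + β + 1) + R) := by
    rw [hW]
    apply mul_le_mul_of_nonneg_left _ hC1.le
    linarith
  have h5 := hyn 0 hq
  rw [hy0] at h5
  rw [hx0] at him0
  have h6 : |P.1.im| ≤ P.1.im ^ 2 + 1 := by
    rw [← sq_abs]
    nlinarith [sq_nonneg (|P.1.im| - 1), abs_nonneg P.1.im]
  constructor
  · linarith
  · linarith

end Pool.Agent.MP_2f2443_an.IP
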