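import Pool.Agent.Lib.MP_2f2443_an.IP.Stm

/-!
# MP_2f2443_an, project IP: two invariant circles with a common point
-/

set_option autoImplicit false

namespace Pool.Agent.MP_2f2443_an.IP

open Filter Topology

private noncomputable def cx_lift {k : ℝ} {h : ℝ → ℝ} (H : Circ k h) : CircleDeg1Lift :=
  ⟨⟨h, H.mono.monotone⟩, H.deg⟩

private lemma cx_int {k : ℝ} {h : ℝ → ℝ} (H : Circ k h) (x : ℝ) (j : ℤ) :
    h (x + j) = h x + j :=
  (cx_lift H).map_add_int x j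

private lemma cx_surj {k : ℝ} {h : ℝ → ℝ} (H : Circ k h) : Function.Surjective h :=
  H.cont.surjective (cx_lift H).tendsto_atTop (cx_lift H).tendsto_atBot

private lemma cx_step {k : ℝ} {h₁ h₂ : ℝ → ℝ} (H₁ : Circ k h₁) (H₂ : Circ k h₂) {x X : ℝ}
    (h1 : h₁ x < X) (h2 : X < h₂ x) :
    h₁ X < 2 * X + VR k X - x ∧ 2 * X + VR k X - x < h₂ X := by
  obtain ⟨x1, hx1⟩ := cx_surj H₁ X
  obtain ⟨x2, hx2⟩ := cx_surj H₂ X
  have e1 := H₁.eq x1
  have e2 := H₂.eq x2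
  rw [hx1] at e1
  rw [hx2] at e2
  have l1 : x < x1 := H₁.mono.lt_iff_lt.mp (by rw [hx1]; exact h1)
  have l2 : x2 < x := H₂.mono.lt_iff_lt.mp (by rw [hx2]; exact h2)
  constructor <;> linarith

private lemma cx_fwd {k : ℝ} {h₁ h₂ : ℝ → ℝ} (H₁ : Circ k h₁) (H₂ : Circ k h₂) {s : ℝ}
    (h : h₁ s < h₂ s) : h₁ (h₁ s) < h₂ (h₁ s) := by
  obtain ⟨s2, hs2⟩ := cx_surj H₂ (h₁ s)
  have e1 := H₁.eq s
  have e2 := H₂.eq s2
  rw [hs2] at e2
  have l : s2 < s := H₂.mono.lt_iff_lt.mp (by rw [hs2]; exact h)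
  linarith

private lemma cx_eqfwd {k : ℝ} {h₁ h₂ : ℝ → ℝ} (H₁ : Circ k h₁) (H₂ : Circ k h₂) {s : ℝ}
    (h : h₁ s = h₂ s) : h₁ (h₁ s) = h₂ (h₁ s) := by
  have e1 := H₁.eq s
  have e2 := H₂.eq s
  rw [← h] at e2
  rw [e1, e2]

private lemma cx_comp {h₁ h₂ : ℝ → ℝ} (c1 : Continuous h₁) (c2 : Continuous h₂) {x₀ a₁ b₁ : ℝ}
    (hx : h₁ x₀ < h₂ x₀) (ha1 : a₁ ≤ x₀) (ha : h₂ a₁ ≤ h₁ a₁) (hb1 : x₀ ≤ b₁)
    (hb : h₂ b₁ ≤ h₁ b₁) :
    ∃ a b, a < x₀ ∧ x₀ < b ∧ h₁ a = h₂ a ∧ h₁ b = h₂ b ∧ ∀ t, a < t → t < b → h₁ t < h₂ t := by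
  have hcl : IsClosed {t : ℝ | h₂ t ≤ h₁ t} := isClosed_le c2 c1
  have hcl' : IsClosed {t : ℝ | h₁ t ≤ h₂ t} := isClosed_le c1 c2
  obtain ⟨a, ⟨⟨haI, haS⟩, hamax⟩⟩ :=
    (isCompact_Icc (a := a₁) (b := x₀) |>.inter_right hcl).exists_isGreatest
      ⟨a₁, ⟨le_rfl, ha1⟩, ha⟩
  obtain ⟨b, ⟨⟨hbI, hbS⟩, hbmin⟩⟩ :=
    (isCompact_Icc (a := x₀) (b := b₁) |>.inter_right hcl).exists_isLeast
      ⟨b₁, ⟨hb1, le_rfl⟩, hb⟩
  change h₂ a ≤ h₁ a at haS
  change h₂ b ≤ h₁ b at hbS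
  have hax : a < x₀ := by
    rcases lt_or_eq_of_le haI.2 with h | h
    · exact h
    · rw [h] at haS
      linarith
  have hxb : x₀ < b := by
    rcases lt_or_eq_of_le hbI.1 with h | h
    · exact h
    · rw [← h] at hbS
      linarith
  have hU1 : ∀ t, a < t → t ≤ x₀ → h₁ t < h₂ t := by
    intro t ht1 ht2
    by_contra hcon
    have := hamax ⟨⟨haI.1.trans ht1.le, ht2⟩, not_lt.mp hcon⟩
    linarith
  have hU2 : ∀ t, x₀ ≤ t → t < b → h₁ t < h₂ t := by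
    intro t ht1 ht2
    by_contra hcon
    have := hbmin ⟨⟨ht1, ht2.le.trans hbI.2⟩, not_lt.mp hcon⟩
    linarith
  refine ⟨a, b, hax, hxb, ?_, ?_, ?_⟩
  · refine le_antisymm ?_ haS
    have hsub : Set.Ioo a x₀ ⊆ {t : ℝ | h₁ t ≤ h₂ t} := fun t ht => (hU1 t ht.1 ht.2.le).le
    have := closure_minimal hsub hcl'
    rw [closure_Ioo hax.ne] at this
    exact this ⟨le_rfl, hax.le⟩
  · refine le_antisymm ?_ hbS
    have hsub : Set.Ioo x₀ b ⊆ {t : ℝ | h₁ t ≤ h₂ t} := fun t ht => (hU2 t ht.1.le ht.2).le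
    have := closure_minimal hsub hcl'
    rw [closure_Ioo hxb.ne] at this
    exact this ⟨hxb.le, le_rfl⟩
  · intro t ht1 ht2
    rcases le_total t x₀ with h | h
    · exact hU1 t ht1 h
    · exact hU2 t h ht2

private lemma cx_main (hpr : S_pr) {k : ℝ} {h₁ h₂ : ℝ → ℝ} (H₁ : Circ k h₁) (H₂ : Circ k h₂)
    {a₀ x₀ : ℝ} (ha₀ : h₁ a₀ = h₂ a₀) (hx₀ : h₁ x₀ < h₂ x₀) :
    ∃ (a : ℝ) (n : ℕ) (m : ℤ), 0 < n ∧ h₁^[n] a = a + m ∧ h₂^[n] a = a + m := by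
  obtain ⟨a, b, hax, hxb, ha, hb, hU⟩ := cx_comp (x₀ := x₀) (a₁ := a₀ + (⌊x₀ - a₀⌋ : ℤ))
    (b₁ := a₀ + (⌈x₀ - a₀⌉ : ℤ)) H₁.cont H₂.cont hx₀
    (by have := Int.floor_le (x₀ - a₀); linarith)
    (by rw [cx_int H₁, cx_int H₂, ha₀])
    (by have := Int.le_ceil (x₀ - a₀); linarith)
    (by rw [cx_int H₁, cx_int H₂, ha₀])
  -- the images of the interval
  have hc : ∀ n : ℕ, h₁ (h₁^[n] a) = h₂ (h₁^[n] a) := by
    intro n
    induction n with
    | zero => exact ha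
    | succ n ih =>
      rw [Function.iterate_succ_apply']
      exact cx_eqfwd H₁ H₂ ih
  have hd : ∀ n : ℕ, h₁ (h₁^[n] b) = h₂ (h₁^[n] b) := by
    intro n
    induction n with
    | zero => exact hb
    | succ n ih =>
      rw [Function.iterate_succ_apply']
      exact cx_eqfwd H₁ H₂ ih
  have hit : ∀ n : ℕ, h₂^[n] a = h₁^[n] a := by
    intro n
    induction n with
    | zero => rfl
    | succ n ih =>
      rw [Function.iterate_succ_apply', Function.iterate_succ_apply', ih, hc n]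
  have hUn : ∀ n : ℕ, ∀ t, h₁^[n] a < t → t < h₁^[n] b → h₁ t < h₂ t := by
    intro n
    induction n with
    | zero => exact hU
    | succ n ih =>
      intro t ht1 ht2
      rw [Function.iterate_succ_apply'] at ht1 ht2
      obtain ⟨s, rfl⟩ := cx_surj H₁ t
      exact cx_fwd H₁ H₂ (ih s (H₁.mono.lt_iff_lt.mp ht1) (H₁.mono.lt_iff_lt.mp ht2))
  -- the region
  let D : Set (ℝ × ℝ) := {P | (a < P.1 ∧ P.1 < b) ∧ (h₁ P.1 < P.1 + P.2 ∧ P.1 + P.2 < h₂ P.1)}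
  have hDo : IsOpen D := by
    have c1 := H₁.cont
    have c2 := H₂.cont
    refine IsOpen.inter (IsOpen.inter ?_ ?_) (IsOpen.inter ?_ ?_)
    · exact isOpen_lt continuous_const continuous_fst
    · exact isOpen_lt continuous_fst continuous_const
    · exact isOpen_lt (c1.comp continuous_fst) (continuous_fst.add continuous_snd)
    · exact isOpen_lt (continuous_fst.add continuous_snd) (c2.comp continuous_fst)
  have hDn : D.Nonempty := by
    refine ⟨(x₀, (h₁ x₀ + h₂ x₀) / 2 - x₀), ⟨hax, hxb⟩, ?_, ?_⟩ <;> simp only <;> linarith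
  obtain ⟨P, hP, n, hn, m, m', P', hP', hfP⟩ := hpr k 1 one_pos D hDo hDn
  rw [one_mul] at hfP
  have horb : ∀ j : ℕ, (h₁^[j] a < ((SMR k)^[j] P).1 ∧ ((SMR k)^[j] P).1 < h₁^[j] b) ∧
      (h₁ ((SMR k)^[j] P).1 < ((SMR k)^[j] P).1 + ((SMR k)^[j] P).2 ∧
        ((SMR k)^[j] P).1 + ((SMR k)^[j] P).2 < h₂ ((SMR k)^[j] P).1) := by
    intro j
    induction j with
    | zero => exact hP
    | succ j ih =>
      rw [Function.iterate_succ_apply', Function.iterate_succ_apply',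
        Function.iterate_succ_apply']
      obtain ⟨⟨i1, i2⟩, i3, i4⟩ := ih
      set Q := (SMR k)^[j] P with hQ
      have e1 : (SMR k Q).1 = Q.1 + Q.2 := rfl
      have e2 : (SMR k Q).2 = Q.2 + VR k (Q.1 + Q.2) := rfl
      have hs := cx_step H₁ H₂ i3 i4
      have e3 : (SMR k Q).1 + (SMR k Q).2 = 2 * (Q.1 + Q.2) + VR k (Q.1 + Q.2) - Q.1 := by
        rw [e1, e2]
        ring
      refine ⟨⟨?_, ?_⟩, ?_, ?_⟩
      · rw [e1]
        exact (H₁.mono i1).trans i3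
      · rw [e1, hd j]
        exact i4.trans (H₂.mono i2)
      · rw [e3, e1]
        exact hs.1
      · rw [e3, e1]
        exact hs.2
  obtain ⟨⟨o1, o2⟩, -⟩ := horb n
  rw [hfP] at o1 o2
  simp only at o1 o2
  obtain ⟨⟨p1, p2⟩, -⟩ := hP'
  have hkey : h₁^[n] a = a + m := by
    rcases lt_trichotomy (h₁^[n] a) (a + m) with h | h | h
    · exfalso
      have h1 := hUn n (a + m) h (by linarith)
      rw [cx_int H₁, cx_int H₂, ha] at h1
      exact lt_irrefl _ h1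
    · exact h
    · exfalso
      have h1 := hU (h₁^[n] a - m) (by linarith) (by linarith)
      have h2 := cx_int H₁ (h₁^[n] a - m) m
      have h3 := cx_int H₂ (h₁^[n] a - m) m
      rw [sub_add_cancel] at h2 h3
      have h4 := hc n
      linarith
  exact ⟨a, n, m, hn, hkey, by rw [hit n, hkey]⟩

theorem p_cx : S_cx := by
  intro hor hpr k h₁ h₂ τ H₁ H₂ hrot hirr hex
  obtain ⟨a₀, ha₀⟩ := hex
  by_contra hne
  have hfin : ∀ (a : ℝ) (n : ℕ) (m : ℤ), 0 < n → h₁^[n] a = a + m → False := by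
    intro a n m hn h
    obtain ⟨q1, q2, -⟩ := ((hor.2 h₁ H₁.cont H₁.mono H₁.deg).2 τ hrot).2 n hn m
    rcases lt_trichotomy ((n : ℝ) * τ) m with h1 | h1 | h1
    · have := q1 h1 a
      linarith
    · apply hirr
      refine ⟨(m : ℚ) / n, ?_⟩
      have hn' : (n : ℝ) ≠ 0 := by exact_mod_cast hn.ne'
      push_cast
      field_simp
      linarith
    · have := q2 h1 a
      linarith
  have hex : ∃ x, h₁ x ≠ h₂ x := by
    by_contra hcon
    push Not at hcon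
    exact hne (funext hcon)
  obtain ⟨x₀, hx₀⟩ := hex
  rcases lt_or_gt_of_ne hx₀ with h | h
  · obtain ⟨a, n, m, hn, e1, e2⟩ := cx_main hpr H₁ H₂ ha₀ h
    exact hfin a n m hn e1
  · obtain ⟨a, n, m, hn, e1, e2⟩ := cx_main hpr H₂ H₁ ha₀.symm h
    exact hfin a n m hn e2

end Pool.Agent.MP_2f2443_an.IP
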