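import Pool.Agent.Lib.MP_2f2443_an.IP.Stm

/-!
# MP_2f2443_an, project IP: final step
-/

set_option autoImplicit false

namespace Pool.Agent.MP_2f2443_an.IP

open Filter Topology

/-- `P` is on a circle with rotation number `τ`. -/
private def fb_On (k : ℝ) (P : ℝ × ℝ) (τ : ℝ) : Prop :=
  ∃ h, Circ k h ∧ h P.1 = P.1 + P.2 ∧ HasRot h τ

private theorem fb_orbit (hor : S_or) {k : ℝ} {h : ℝ → ℝ} (hC : Circ k h) {P : ℝ × ℝ}
    (hP : h P.1 = P.1 + P.2) (n : ℕ) :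
    (SMR k)^[n] P = (h^[n] P.1, h^[n + 1] P.1 - h^[n] P.1) := by
  have h1 := hor.1 k h hC n P.1
  have h2 : h P.1 - P.1 = P.2 := by
    rw [hP]
    ring
  rw [h2] at h1
  exact h1

private theorem fb_near (hor : S_or) {k τ : ℝ} {P : ℝ × ℝ} (h : fb_On k P τ) (n : ℕ) :
    |((SMR k)^[n] P).1 - P.1 - n * τ| ≤ 1 := by
  obtain ⟨h, hC, hP, hR⟩ := h
  rw [fb_orbit hor hC hP n]
  exact hR n P.1

private theorem fb_uniq (hor : S_or) {k τ τ' : ℝ} {P : ℝ × ℝ} (h : fb_On k P τ)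
    (h' : fb_On k P τ') : τ = τ' := by
  by_contra hne
  have hpos : 0 < |τ - τ'| := abs_pos.2 (sub_ne_zero.2 hne)
  obtain ⟨n, hn⟩ := exists_nat_gt (2 / |τ - τ'|)
  have h1 := fb_near hor h n
  have h2 := fb_near hor h' n
  have h3 : 2 < n * |τ - τ'| := by rwa [div_lt_iff₀ hpos] at hn
  have h4 : (n : ℝ) * |τ - τ'| = |n * τ - n * τ'| := by
    rw [← mul_sub, abs_mul, Nat.abs_cast]
  rw [h4] at h3
  rw [abs_le] at h1 h2
  have h5 : |(n : ℝ) * τ - n * τ'| ≤ 2 := by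
    rw [abs_le]
    constructor <;> linarith
  linarith

private theorem fb_cont (k : ℝ) (n : ℕ) : Continuous ((SMR k)^[n]) := by
  apply Continuous.iterate
  unfold SMR VR
  fun_prop

private theorem fb_rho (hor : S_or) {k : ℝ} {U : Set (ℝ × ℝ)} {ρ : ℝ × ℝ → ℝ}
    (hρ : ∀ P ∈ U, fb_On k P (ρ P)) : ContinuousOn ρ U := by
  apply continuousOn_of_uniform_approx_of_continuousOn
  intro u hu
  obtain ⟨ε, hε, hu'⟩ := Metric.mem_uniformity_dist.1 hu
  obtain ⟨n, hn⟩ := exists_nat_gt (1 / ε)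
  have hn0 : (0 : ℝ) < n := lt_trans (by positivity) hn
  refine ⟨fun P => (((SMR k)^[n] P).1 - P.1) / n, ?_, ?_⟩
  · exact (((continuous_fst.comp (fb_cont k n)).sub continuous_fst).div_const _).continuousOn
  · intro P hP
    apply hu'
    rw [Real.dist_eq]
    have h1 := fb_near hor (hρ P hP) n
    have h2 : ρ P - (((SMR k)^[n] P).1 - P.1) / n =
        -(((SMR k)^[n] P).1 - P.1 - n * ρ P) / n := by
      field_simp
      ring
    rw [h2, abs_div, abs_neg, Nat.abs_cast, div_lt_iff₀ hn0]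
    have h3 : 1 < ε * n := by rwa [div_lt_iff₀' hε] at hn
    linarith

private theorem fb_lt (hor : S_or) {k τ : ℝ} {P : ℝ × ℝ} (h : fb_On k P τ) {q : ℕ} (hq : 0 < q)
    {p : ℤ} (hτ : (q : ℝ) * τ < p) : ((SMR k)^[q] P).1 < P.1 + p := by
  obtain ⟨h, hC, hP, hR⟩ := h
  rw [fb_orbit hor hC hP q]
  exact (((hor.2 h hC.cont hC.mono hC.deg).2 τ hR).2 q hq p).1 hτ P.1

private theorem fb_gt (hor : S_or) {k τ : ℝ} {P : ℝ × ℝ} (h : fb_On k P τ) {q : ℕ} (hq : 0 < q)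
    {p : ℤ} (hτ : (p : ℝ) < q * τ) : P.1 + p < ((SMR k)^[q] P).1 := by
  obtain ⟨h, hC, hP, hR⟩ := h
  rw [fb_orbit hor hC hP q]
  exact (((hor.2 h hC.cont hC.mono hC.deg).2 τ hR).2 q hq p).2.1 hτ P.1

private theorem fb_tr {k : ℝ} {h : ℝ → ℝ} (hC : Circ k h) (m : ℤ) :
    ∀ x, h (x + m) = h x + m := by
  induction m using Int.induction_on with
  | zero =>
    intro x
    simp
  | succ i ih =>
    intro x
    push_cast
    rw [← add_assoc, hC.deg, ← add_assoc]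
    have := ih x
    push_cast at this
    rw [this]
  | pred i ih =>
    intro x
    have h1 := hC.deg (x + ((-(i : ℤ) - 1 : ℤ) : ℝ))
    have h2 := ih x
    have h3 : x + ((-(i : ℤ) - 1 : ℤ) : ℝ) + 1 = x + ((-(i : ℤ) : ℤ) : ℝ) := by
      push_cast
      ring
    rw [h3, h2] at h1
    push_cast at h1 ⊢
    linarith

private theorem fb_per (hor : S_or) {k τ : ℝ} {P : ℝ × ℝ} (h : fb_On k P τ) {q : ℕ} {p : ℤ}
    (hq : ((SMR k)^[q] P).1 = P.1 + p) :
    (SMR k)^[q] P = (P.1 + (p : ℝ), P.2 + ((0 : ℤ) : ℝ)) := by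
  obtain ⟨h, hC, hP, hR⟩ := h
  rw [fb_orbit hor hC hP q] at hq ⊢
  have h1 : h^[q] P.1 = P.1 + p := hq
  rw [Function.iterate_succ_apply', h1, fb_tr hC, hP]
  refine Prod.ext rfl ?_
  push_cast
  ring

private theorem fb_const (hun : T_un)
    (hwa : ∀ (k : ℝ), k ≠ 0 → ∀ (q : ℕ), 0 < q → ∀ (p : ℤ)
      (W : Set (ℝ × ℝ)), IsOpen W → W.Nonempty →
      ¬ ∀ P ∈ W, ∃ h, Circ k h ∧ h P.1 = P.1 + P.2 ∧ HasRot h ((p : ℝ) / q))
    {k : ℝ} (hk : k ≠ 0) {W : Set (ℝ × ℝ)} (hW : IsOpen W) (hne : W.Nonempty) (c : ℝ) :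
    ¬ ∀ P ∈ W, fb_On k P c := by
  intro hall
  by_cases hc : Irrational c
  · obtain ⟨P, hP⟩ := hne
    obtain ⟨ε, hε, hb⟩ := Metric.isOpen_iff.1 hW P hP
    have hP' : (P.1, P.2 + ε / 2) ∈ W := by
      apply hb
      rw [Metric.mem_ball, Prod.dist_eq, max_lt_iff]
      refine ⟨?_, ?_⟩
      · change dist P.1 P.1 < ε
        rw [dist_self]
        exact hε
      · change dist (P.2 + ε / 2) P.2 < ε
        rw [Real.dist_eq, show P.2 + ε / 2 - P.2 = ε / 2 by ring, abs_of_pos (by positivity)]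
        linarith
    obtain ⟨h, hC, he, hR⟩ := hall P hP
    obtain ⟨h', hC', he', hR'⟩ := hall _ hP'
    have h3 := hun k h h' c hC hC' hR hR' hc
    rw [h3] at he
    have he'' : h' P.1 = P.1 + (P.2 + ε / 2) := he'
    linarith
  · have hr : ∃ r : ℚ, (r : ℝ) = c := by
      unfold Irrational at hc
      rw [not_not] at hc
      exact hc
    obtain ⟨r, hr⟩ := hr
    apply hwa k hk r.den r.pos r.num W hW hne
    intro P hP
    obtain ⟨h, hC, he, hR⟩ := hall P hP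
    refine ⟨h, hC, he, ?_⟩
    rw [← Rat.cast_def, hr]
    exact hR

theorem p_fb : S_fb := by
  intro hfi hor hun hci hwa k hk
  by_contra hne
  have hUo : IsOpen (interior (⋃ (g : ℝ → ℝ) (_ : IsCircle k g), {P : ℝ × ℝ | P.2 = g P.1})) :=
    isOpen_interior
  have hex : ∀ P ∈ interior (⋃ (g : ℝ → ℝ) (_ : IsCircle k g), {P : ℝ × ℝ | P.2 = g P.1}),
      ∃ τ, fb_On k P τ := by
    intro P hP
    have hP' := interior_subset hP
    rw [Set.mem_iUnion₂] at hP'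
    obtain ⟨g, hg, hPg⟩ := hP'
    have hC := hci k g hg
    obtain ⟨τ, hτ⟩ := (hor.2 _ hC.cont hC.mono hC.deg).1
    refine ⟨τ, _, hC, ?_, hτ⟩
    have h1 : P.2 = g P.1 := hPg
    change P.1 + g P.1 = P.1 + P.2
    rw [h1]
  generalize interior (⋃ (g : ℝ → ℝ) (_ : IsCircle k g), {P : ℝ × ℝ | P.2 = g P.1}) = U
    at hne hUo hex
  have hUne : U.Nonempty := Set.nonempty_iff_ne_empty.2 hne
  choose! ρ hρ using hex
  obtain ⟨P₀, hP₀⟩ := hUne
  obtain ⟨ε, hε, hb⟩ := Metric.isOpen_iff.1 hUo P₀ hP₀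
  have hbox : ∀ x y : ℝ, |x - P₀.1| < ε → |y - P₀.2| < ε → (x, y) ∈ Metric.ball P₀ ε := by
    intro x y hx hy
    rw [Metric.mem_ball, Prod.dist_eq, max_lt_iff]
    exact ⟨hx, hy⟩
  have box : ∀ x y : ℝ, |x - P₀.1| < ε → |y - P₀.2| < ε → (x, y) ∈ U :=
    fun x y hx hy => hb (hbox x y hx hy)
  have key : ∃ x₁ y y' : ℝ, |x₁ - P₀.1| < ε ∧ |y - P₀.2| < ε ∧ |y' - P₀.2| < ε ∧
      ρ (x₁, y) < ρ (x₁, y') := by
    by_contra hno
    push Not at hno
    obtain ⟨h, hC, he, hR⟩ := hρ P₀ hP₀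
    have hc : Continuous fun x => h x - x := hC.cont.sub continuous_id
    obtain ⟨δ, hδ, hδ'⟩ := Metric.continuousAt_iff.1 hc.continuousAt ε hε
    have hW : IsOpen (Metric.ball P₀.1 (min δ ε) ×ˢ Metric.ball P₀.2 ε) :=
      Metric.isOpen_ball.prod Metric.isOpen_ball
    have hWne : (Metric.ball P₀.1 (min δ ε) ×ˢ Metric.ball P₀.2 ε).Nonempty :=
      ⟨P₀, Metric.mem_ball_self (lt_min hδ hε), Metric.mem_ball_self hε⟩
    refine fb_const hun hwa hk hW hWne (ρ P₀) ?_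
    intro P hP
    obtain ⟨x, y⟩ := P
    have hx : |x - P₀.1| < min δ ε := hP.1
    have hy : |y - P₀.2| < ε := hP.2
    have hxε : |x - P₀.1| < ε := lt_of_lt_of_le hx (min_le_right _ _)
    have hy1 : |(h x - x) - P₀.2| < ε := by
      have h1 := hδ' (show dist x P₀.1 < δ from lt_of_lt_of_le hx (min_le_left _ _))
      have h2 : h P₀.1 - P₀.1 = P₀.2 := by
        rw [he]
        ring
      change dist (h x - x) (h P₀.1 - P₀.1) < ε at h1
      rw [h2] at h1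
      exact h1
    have hon : fb_On k (x, h x - x) (ρ P₀) := ⟨h, hC, by
      change h x = x + (h x - x)
      ring, hR⟩
    have h1 : ρ (x, h x - x) = ρ P₀ := fb_uniq hor (hρ _ (box _ _ hxε hy1)) hon
    have h2 : ρ (x, y) = ρ (x, h x - x) :=
      le_antisymm (hno x (h x - x) y hxε hy1 hy) (hno x y (h x - x) hxε hy hy1)
    rw [← h1, ← h2]
    exact hρ _ (box _ _ hxε hy)
  obtain ⟨x₁, y, y', hx₁, hy, hy', hlt⟩ := key
  obtain ⟨r, hr1, hr2⟩ := exists_rat_btwn hlt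
  have hcont : ContinuousOn ρ U := fb_rho hor hρ
  have c1 : ContinuousAt (fun x => ρ (x, y)) x₁ := by
    have h1 : ContinuousAt ρ (x₁, y) := hcont.continuousAt (hUo.mem_nhds (box _ _ hx₁ hy))
    exact ContinuousAt.comp (f := fun x : ℝ => (x, y)) h1 (by fun_prop)
  have c2 : ContinuousAt (fun x => ρ (x, y')) x₁ := by
    have h1 : ContinuousAt ρ (x₁, y') := hcont.continuousAt (hUo.mem_nhds (box _ _ hx₁ hy'))
    exact ContinuousAt.comp (f := fun x : ℝ => (x, y')) h1 (by fun_prop)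
  have c3 : ContinuousAt (fun x : ℝ => |x - P₀.1|) x₁ := by fun_prop
  have e1 := Filter.Tendsto.eventually_lt_const hr1 c1
  have e2 := Filter.Tendsto.eventually_const_lt hr2 c2
  have e3 := Filter.Tendsto.eventually_lt_const hx₁ c3
  obtain ⟨δ, hδ, hball⟩ := Metric.eventually_nhds_iff_ball.1 (e1.and (e2.and e3))
  have hq0 : (0 : ℝ) < r.den := Nat.cast_pos.2 r.pos
  have hrd : (r : ℝ) = r.num / r.den := Rat.cast_def r
  have hfin := hfi k hk r.den r.pos r.num 0 (Metric.ball P₀ ε) Metric.isBounded_ball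
  have hsub : Metric.ball x₁ δ ⊆ Prod.fst '' {P : ℝ × ℝ | P ∈ Metric.ball P₀ ε ∧
      (SMR k)^[r.den] P = (P.1 + (r.num : ℝ), P.2 + ((0 : ℤ) : ℝ))} := by
    intro x hx
    obtain ⟨h1, h2, h3⟩ := hball x hx
    have hF : Continuous fun t : ℝ => ((SMR k)^[r.den] (x, t)).1 :=
      continuous_fst.comp ((fb_cont k r.den).comp (by fun_prop))
    have hl : ((SMR k)^[r.den] (x, y)).1 < x + r.num := by
      refine fb_lt hor (hρ _ (box _ _ h3 hy)) r.pos ?_
      rw [hrd, lt_div_iff₀ hq0] at h1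
      linarith
    have hg : x + r.num < ((SMR k)^[r.den] (x, y')).1 := by
      refine fb_gt hor (hρ _ (box _ _ h3 hy')) r.pos ?_
      rw [hrd, div_lt_iff₀ hq0] at h2
      linarith
    have hiv := intermediate_value_uIcc (a := y) (b := y') hF.continuousOn
    obtain ⟨t, ht, hFt⟩ := hiv (Set.mem_uIcc.2 (Or.inl ⟨hl.le, hg.le⟩))
    have htε : |t - P₀.2| < ε := by
      rw [abs_lt] at hy hy' ⊢
      rcases Set.mem_uIcc.1 ht with h4 | h4
      · constructor <;> linarith [h4.1, h4.2, hy.1, hy.2, hy'.1, hy'.2]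
      · constructor <;> linarith [h4.1, h4.2, hy.1, hy.2, hy'.1, hy'.2]
    exact ⟨(x, t), ⟨hbox _ _ h3 htε, fb_per hor (hρ _ (box _ _ h3 htε)) hFt⟩, rfl⟩
  have hinf : (Metric.ball x₁ δ).Infinite := by
    rw [Real.ball_eq_Ioo]
    exact Set.Ioo_infinite (by linarith)
  exact hinf ((hfin.image Prod.fst).subset hsub)

end Pool.Agent.MP_2f2443_an.IP
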