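import Pool.Agent.Lib.MP_2f2443_an.IP.Stm

/-!
# MP_2f2443_an, piece fi: finiteness for the real map
-/

set_option autoImplicit false

namespace Pool.Agent.MP_2f2443_an.IP

open Filter Topology

/-- the inclusion -/
private def fi_io (P : ℝ × ℝ) : ℂ × ℂ := ((P.1 : ℂ), (P.2 : ℂ))

private theorem fi_io_inj : Function.Injective fi_io := by
  intro P Q h
  have h1 := congrArg Prod.fst h
  have h2 := congrArg Prod.snd h
  simp only [fi_io, Complex.ofReal_inj] at h1 h2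
  exact Prod.ext h1 h2

private theorem fi_io_cont : Continuous fi_io := by
  unfold fi_io
  fun_prop

private theorem fi_semi (k : ℝ) : Function.Semiconj fi_io (SMR k) (SMC (k : ℂ)) := by
  intro P
  unfold fi_io SMR SMC VR VC
  simp only [Prod.mk.injEq]
  constructor
  · push_cast
    rfl
  · push_cast
    rfl

private theorem fi_iter (k : ℝ) (q : ℕ) (P : ℝ × ℝ) :
    (SMC (k : ℂ))^[q] (fi_io P) = fi_io ((SMR k)^[q] P) :=
  ((fi_semi k).iterate_right q P).symm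

private theorem fi_cont (k : ℝ) : Continuous (SMR k) := by
  unfold SMR VR
  fun_prop

private theorem fi_a (hT : T_is) (k : ℝ) (hk : k ≠ 0) (q : ℕ) (hq : 0 < q) (p r : ℤ)
    (B : Set (ℝ × ℝ)) (hB : Bornology.IsBounded B) :
    {P : ℝ × ℝ | P ∈ B ∧ (SMR k)^[q] P = (P.1 + (p : ℝ), P.2 + (r : ℝ))}.Finite := by
  by_contra hinf
  have hinf' : (fi_io '' {P : ℝ × ℝ | P ∈ B ∧ (SMR k)^[q] P = (P.1 + (p : ℝ), P.2 + (r : ℝ))}).Infinite :=
    (Set.Infinite.image fi_io_inj.injOn hinf)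
  have hcomp : IsCompact (fi_io '' closure B) := (hB.isCompact_closure).image fi_io_cont
  have hsub : fi_io '' {P : ℝ × ℝ | P ∈ B ∧ (SMR k)^[q] P = (P.1 + (p : ℝ), P.2 + (r : ℝ))} ⊆
      fi_io '' closure B := by
    apply Set.image_mono
    intro P hP
    exact subset_closure hP.1
  obtain ⟨x, _, hx⟩ := hinf'.exists_accPt_of_subset_isCompact hcomp hsub
  refine hT (k : ℂ) (by exact_mod_cast hk) q hq p r x (hx.mono ?_)
  apply Filter.principal_mono.2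
  rintro _ ⟨P, ⟨_, hP⟩, rfl⟩
  show (SMC (k : ℂ))^[q] (fi_io P) = ((fi_io P).1 + (p : ℂ), (fi_io P).2 + (r : ℂ))
  rw [fi_iter, hP]
  unfold fi_io
  simp

theorem p_fi : S_fi := by
  intro hT
  refine ⟨fun k hk q hq p r B hB => fi_a hT k hk q hq p r B hB, ?_⟩
  intro k hk q hq
  have hcomp : IsCompact (Set.Icc (0 : ℝ) 1 ×ˢ Set.Icc (0 : ℝ) 1) := isCompact_Icc.prod isCompact_Icc
  have hc : Continuous fun P : ℝ × ℝ => (SMR k)^[q] P - P := ((fi_cont k).iterate q).sub continuous_id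
  obtain ⟨M, hM⟩ := hcomp.exists_bound_of_continuousOn hc.continuousOn
  have hB : Bornology.IsBounded (Set.Icc (0 : ℝ) 1 ×ˢ Set.Icc (0 : ℝ) 1) := hcomp.isBounded
  have hfin : (⋃ p ∈ Set.Icc (-⌈M⌉) ⌈M⌉, ⋃ r ∈ Set.Icc (-⌈M⌉) ⌈M⌉,
      {P : ℝ × ℝ | P ∈ Set.Icc (0 : ℝ) 1 ×ˢ Set.Icc (0 : ℝ) 1 ∧
        (SMR k)^[q] P = (P.1 + (p : ℝ), P.2 + (r : ℝ))}).Finite := by
    refine Set.Finite.biUnion (Set.finite_Icc _ _) fun p _ => ?_
    refine Set.Finite.biUnion (Set.finite_Icc _ _) fun r _ => ?_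
    exact fi_a hT k hk q hq p r _ hB
  refine hfin.subset ?_
  rintro P ⟨h1, h2, p, r, hP⟩
  have hPm : P ∈ Set.Icc (0 : ℝ) 1 ×ˢ Set.Icc (0 : ℝ) 1 :=
    ⟨⟨h1.1, h1.2.le⟩, ⟨h2.1, h2.2.le⟩⟩
  have hb := hM P hPm
  have he : (SMR k)^[q] P - P = ((p : ℝ), (r : ℝ)) := by
    rw [hP]
    ext <;> simp
  rw [he, Prod.norm_def, max_le_iff] at hb
  have hbd : ∀ s : ℤ, ‖(s : ℝ)‖ ≤ M → s ∈ Set.Icc (-⌈M⌉) ⌈M⌉ := by
    intro s hs
    rw [Real.norm_eq_abs, abs_le] at hs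
    have hcl := Int.le_ceil M
    constructor
    · have : (-(⌈M⌉ : ℝ)) ≤ s := by linarith [hs.1]
      exact_mod_cast this
    · have : (s : ℝ) ≤ ⌈M⌉ := by linarith [hs.2]
      exact_mod_cast this
  simp only [Set.mem_iUnion]
  exact ⟨p, hbd p hb.1, r, hbd r hb.2, hPm, hP⟩

end Pool.Agent.MP_2f2443_an.IP
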