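import Pool.Agent.Lib.MP_2f2443_an.IP.Stm

/-!
# MP_2f2443_an, project IP: the mixed functions of the roots are holomorphic
-/

set_option autoImplicit false

namespace Pool.Agent.MP_2f2443_an.IP

open Filter Topology

theorem p_hx : S_nw → S_mi → S_hx := by
  intro hnw hmi F G H x₀ y₀ r R m Z hZ hG hH J
  refine hmi m (fun x i => G (x, Z x i)) (fun x i => H (x, Z x i)) (Metric.ball x₀ r) ?_ J
  intro s
  refine hnw m (fun x i => G (x, Z x i) + s * H (x, Z x i)) (Metric.ball x₀ r) ?_
  intro j _
  exact hZ.hol (fun P => (G P + s * H P) ^ j) ((hG.add (hH.const_mul s)).pow j)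

end Pool.Agent.MP_2f2443_an.IP
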