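import Pool.Agent.Lib.MP_2f2443_an.IP.Stm

/-!
# MP_2f2443_an, piece id: the identity
-/

set_option autoImplicit false

namespace Pool.Agent.MP_2f2443_an.IP

private theorem id_term (y d : ℂ) : d.im ^ 2 - d.re ^ 2 / 2 = (y.im ^ 2 - y.re ^ 2 / 2) +
    ((-2 * Complex.I * (y.im : ℂ) - (y.re : ℂ)) * (d - y) - 3 / 4 * (d - y) ^ 2).re +
    1 / 4 * ‖d - y‖ ^ 2 := by
  rw [Complex.sq_norm, Complex.normSq_apply]
  have h34 : (3 / 4 : ℂ) = ((3 / 4 : ℝ) : ℂ) := by push_cast; ring
  rw [h34, Complex.sub_re, Complex.re_ofReal_mul, pow_two (d - y)]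
  simp only [Complex.mul_re, Complex.mul_im, Complex.sub_re, Complex.sub_im, Complex.neg_re,
    Complex.neg_im, Complex.I_re, Complex.I_im, Complex.ofReal_re, Complex.ofReal_im,
    Complex.re_ofNat, Complex.im_ofNat]
  ring

theorem p_id : S_id := by
  intro k q Q P
  unfold psi LL
  rw [Complex.re_sum, Finset.mul_sum, ← Finset.sum_add_distrib, ← Finset.sum_add_distrib]
  exact Finset.sum_congr rfl fun n _ => id_term _ _

end Pool.Agent.MP_2f2443_an.IP
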