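import Pool.Agent.Lib.MP_2f2443_an.IP.Stm

/-!
# MP_2f2443_an, project IP: piece `in` (local injectivity)
-/

set_option autoImplicit false

namespace Pool.Agent.MP_2f2443_an.IP

open Filter Topology

private lemma in_diff (k : ℂ) : Differentiable ℂ (VC k) := by
  unfold VC
  fun_prop

private lemma in_per (k x : ℂ) (p : ℤ) : VC k (x + p) = VC k x := by
  unfold VC
  have h : (2 : ℂ) * Real.pi * (x + p) = 2 * Real.pi * x + p * (2 * Real.pi) := by ring
  rw [h, Complex.sin_add_int_mul_two_pi]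

private lemma in_nonconst (k : ℂ) (hk : k ≠ 0) (c : ℂ) : ∃ z, VC k z ≠ c := by
  by_contra hcon
  push Not at hcon
  have h0 : VC k 0 = 0 := by
    unfold VC
    simp
  have h1 : VC k (1 / 4) = k / (2 * Real.pi) := by
    unfold VC
    have h : (2 : ℂ) * Real.pi * (1 / 4) = Real.pi / 2 := by ring
    rw [h, Complex.sin_pi_div_two, mul_one]
  have h2 : k / (2 * (Real.pi : ℂ)) ≠ 0 := by
    have hpi : (Real.pi : ℂ) ≠ 0 := by exact_mod_cast Real.pi_ne_zero
    exact div_ne_zero hk (mul_ne_zero two_ne_zero hpi)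
  apply h2
  rw [← h1, hcon, ← hcon 0, h0]

private lemma in_nhds (k : ℂ) (hk : k ≠ 0) (x₀ : ℂ) :
    ∀ᶠ z in 𝓝 x₀, VC k z = VC k x₀ → z = x₀ := by
  have hd := in_diff k
  have ha : AnalyticAt ℂ (VC k) x₀ := hd.analyticAt x₀
  have hc : AnalyticAt ℂ (fun _ : ℂ => VC k x₀) x₀ := analyticAt_const
  rcases ha.eventually_eq_or_eventually_ne hc with h | h
  · exfalso
    obtain ⟨z, hz⟩ := in_nonconst k hk (VC k x₀)
    apply hz
    have hA : AnalyticOnNhd ℂ (VC k) Set.univ := fun x _ => hd.analyticAt x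
    have hB : AnalyticOnNhd ℂ (fun _ : ℂ => VC k x₀) Set.univ := fun x _ => analyticAt_const
    exact hA.eqOn_of_preconnected_of_eventuallyEq hB isPreconnected_univ (Set.mem_univ x₀) h
      (Set.mem_univ z)
  · rw [eventually_nhdsWithin_iff] at h
    filter_upwards [h] with z hz hV
    by_contra hne
    exact hz hne hV

private lemma in_step (k : ℂ) (n : ℕ) (P : ℂ × ℂ) :
    ((SMC k)^[n + 1] P).2 = ((SMC k)^[n] P).2 + VC k ((SMC k)^[n + 1] P).1 := by
  rw [Function.iterate_succ_apply']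
  rfl

theorem p_in : S_in := by
  intro _ k hk q hq p r Q hQ
  refine ⟨{P | VC k P.1 = VC k Q.1 → P.1 = Q.1}, ?_, ?_⟩
  · have h := in_nhds k hk Q.1
    exact (continuous_fst.tendsto Q).eventually h
  · intro P hPN hP hne
    by_contra hcon
    push Not at hcon
    apply hne
    have h0 : P.2 = Q.2 := hcon 0 hq
    obtain ⟨m, rfl⟩ : ∃ m, q = m + 1 := ⟨q - 1, by omega⟩
    have hm := hcon m (by omega)
    have hP' : (SMC k)^[m + 1] P = (P.1 + (p : ℂ), P.2 + (r : ℂ)) := hP
    have hQ' : (SMC k)^[m + 1] Q = (Q.1 + (p : ℂ), Q.2 + (r : ℂ)) := hQ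
    have hsP := in_step k m P
    have hsQ := in_step k m Q
    rw [hP'] at hsP
    rw [hQ'] at hsQ
    simp only [in_per] at hsP hsQ
    have hV : VC k P.1 = VC k Q.1 := by
      have : VC k P.1 = P.2 + (r : ℂ) - ((SMC k)^[m] P).2 := by rw [hsP]; ring
      rw [this, h0, hm, hsQ]
      ring
    exact Prod.ext (hPN hV) h0

end Pool.Agent.MP_2f2443_an.IP
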