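import Pool.Agent.Lib.MP_2f2443_an.IP.Stm

/-!
# MP_2f2443_an, project IP: piece `is` (complex periodic points are isolated)
-/

set_option autoImplicit false

namespace Pool.Agent.MP_2f2443_an.IP

open Filter Topology

private lemma is_set (k : ℂ) (q : ℕ) (p r : ℤ) :
    PerC k q p r = {P : ℂ × ℂ | ((SMC k)^[q] P).1 - P.1 - (p : ℂ) = 0 ∧
      ((SMC k)^[q] P).2 - P.2 - (r : ℂ) = 0} := by
  ext P
  constructor
  · intro h
    have h' : (SMC k)^[q] P = (P.1 + (p : ℂ), P.2 + (r : ℂ)) := h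
    refine ⟨?_, ?_⟩
    · rw [h']
      ring
    · rw [h']
      ring
  · rintro ⟨h1, h2⟩
    have e1 : ((SMC k)^[q] P).1 = P.1 + (p : ℂ) := by linear_combination h1
    have e2 : ((SMC k)^[q] P).2 = P.2 + (r : ℂ) := by linear_combination h2
    exact Prod.ext e1 e2

theorem p_is : S_is := by
  intro hmp hen hmx hid hin hne k hk q hq p r P hacc
  obtain ⟨P₀, hP0, hmax⟩ := hmx k hk q hq p r ⟨P, hacc⟩
  obtain ⟨h1, h2, -, h4, -, -, h7⟩ := hen k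
  obtain ⟨-, hsub, -⟩ := h4 q p r
  have hP0mem : P₀ ∈ PerC k q p r := hsub hP0
  obtain ⟨N, hN, hNin⟩ := hin k hk q hq p r P₀ hP0mem
  have hF : Differentiable ℂ fun Q : ℂ × ℂ => ((SMC k)^[q] Q).1 - Q.1 - (p : ℂ) :=
    ((h1 q).sub differentiable_fst).sub_const _
  have hG : Differentiable ℂ fun Q : ℂ × ℂ => ((SMC k)^[q] Q).2 - Q.2 - (r : ℂ) :=
    ((h2 q).sub differentiable_snd).sub_const _
  obtain ⟨hL, hL0⟩ := h7 q P₀
  have hne' : ∃ y : ℂ, (fun Q : ℂ × ℂ => ((SMC k)^[q] Q).1 - Q.1 - (p : ℂ)) (P₀.1, y) ≠ 0 := by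
    obtain ⟨y, hy⟩ := hne k q hq p P₀.1
    refine ⟨y, fun h => hy ?_⟩
    have h' : ((SMC k)^[q] (P₀.1, y)).1 - P₀.1 - (p : ℂ) = 0 := h
    linear_combination h'
  have hacc0 := hP0
  rw [is_set] at hacc0
  obtain ⟨Q, hQN, hQne, hQacc, hQre⟩ := hmp _ _ _ P₀ hF hG hL hne' hL0 hacc0 N hN
  have hQacc' : AccPt Q (𝓟 (PerC k q p r)) := by
    rw [is_set]
    exact hQacc
  have hQmem : Q ∈ PerC k q p r := hsub hQacc'
  have hle := hmax Q hQacc'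
  have hidQ := hid k q P₀ Q
  have hsum0 : ∑ n ∈ Finset.range q, ‖((SMC k)^[n] Q).2 - ((SMC k)^[n] P₀).2‖ ^ 2 ≤ 0 := by
    linarith
  obtain ⟨n, hn, hnne⟩ := hNin Q hQN hQmem hQne
  have hpos : 0 < ‖((SMC k)^[n] Q).2 - ((SMC k)^[n] P₀).2‖ ^ 2 := by
    have : 0 < ‖((SMC k)^[n] Q).2 - ((SMC k)^[n] P₀).2‖ := norm_pos_iff.mpr (sub_ne_zero.mpr hnne)
    positivity
  have hle2 : ‖((SMC k)^[n] Q).2 - ((SMC k)^[n] P₀).2‖ ^ 2 ≤
      ∑ n ∈ Finset.range q, ‖((SMC k)^[n] Q).2 - ((SMC k)^[n] P₀).2‖ ^ 2 :=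
    Finset.single_le_sum (f := fun n => ‖((SMC k)^[n] Q).2 - ((SMC k)^[n] P₀).2‖ ^ 2)
      (fun i _ => by positivity) (Finset.mem_range.mpr hn)
  linarith

end Pool.Agent.MP_2f2443_an.IP
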