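import Pool.Agent.Lib.MP_2f2443_an.IP.Stm

/-!
# MP_2f2443_an, project IP: piece mi (polarisation)
-/

set_option autoImplicit false

namespace Pool.Agent.MP_2f2443_an.IP

private theorem mi_prod {m : ℕ} (a b : Fin m → ℂ) (s : ℂ) :
    ∏ i, (a i + s * b i) = ∑ J : Fin (m + 1), s ^ (J : ℕ) * mixed a b J := by
  classical
  have h1 : ∏ i, (a i + s * b i) = ∏ i, (s * b i + a i) :=
    Finset.prod_congr rfl fun i _ => add_comm _ _
  rw [h1, Finset.prod_add, Finset.sum_powerset, Finset.card_univ, Fintype.card_fin,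
    Finset.sum_range]
  refine Finset.sum_congr rfl fun J _ => ?_
  unfold mixed
  rw [Finset.mul_sum]
  refine Finset.sum_congr rfl fun A hA => ?_
  rw [Finset.prod_mul_distrib, Finset.prod_const, (Finset.mem_powersetCard.1 hA).2, mul_assoc]

/-- [IP mi] polarisation -/
theorem p_mi : S_mi := by
  classical
  intro m u v S h J
  by_cases hJ : J < m + 1
  · let V : Matrix (Fin (m + 1)) (Fin (m + 1)) ℂ :=
      Matrix.vandermonde (fun k : Fin (m + 1) => (((k : ℕ)) : ℂ))
    have hdet : IsUnit V.det := by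
      rw [isUnit_iff_ne_zero]
      refine Matrix.det_vandermonde_ne_zero_iff.2 ?_
      intro a b hab
      exact Fin.val_injective (Nat.cast_injective hab)
    have h2 : ∀ x, mixed (u x) (v x) J =
        ∑ k : Fin (m + 1), V⁻¹ ⟨J, hJ⟩ k * ∏ i, (u x i + ((k : ℕ) : ℂ) * v x i) := by
      intro x
      let c : Fin (m + 1) → ℂ := fun J => mixed (u x) (v x) J
      have h3 : (fun k : Fin (m + 1) => ∏ i, (u x i + ((k : ℕ) : ℂ) * v x i)) =
          V.mulVec c := by
        funext k
        rw [mi_prod]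
        rfl
      have h4 : V⁻¹.mulVec (V.mulVec c) = c := by
        rw [Matrix.mulVec_mulVec, Matrix.nonsing_inv_mul _ hdet, Matrix.one_mulVec]
      rw [← h3] at h4
      have h5 := congrFun h4 ⟨J, hJ⟩
      exact h5.symm
    have h6 : (fun x => mixed (u x) (v x) J) = fun x =>
        ∑ k : Fin (m + 1), V⁻¹ ⟨J, hJ⟩ k * ∏ i, (u x i + ((k : ℕ) : ℂ) * v x i) := funext h2
    rw [h6]
    refine DifferentiableOn.fun_sum fun k _ => ?_
    exact (h ((k : ℕ) : ℂ)).const_mul _
  · have h7 : (fun x => mixed (u x) (v x) J) = fun _ => 0 := by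
      funext x
      unfold mixed
      rw [Finset.powersetCard_eq_empty.2, Finset.sum_empty]
      rw [Finset.card_univ, Fintype.card_fin]
      omega
    rw [h7]
    exact differentiableOn_const _

end Pool.Agent.MP_2f2443_an.IP
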