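import Pool.Agent.Lib.MP_2f2443_an.IP.Stm

/-!
# MP_2f2443_an, [IP mp]: a maximum principle on the common zeros of two entire functions
-/

set_option autoImplicit false

namespace Pool.Agent.MP_2f2443_an.IP

open Filter Topology

private theorem mp_mixed_top {m : ℕ} (a : Fin m → ℂ) : mixed a (fun _ => 1) m = 1 := by
  unfold mixed
  have h : Finset.powersetCard m (Finset.univ : Finset (Fin m)) = {Finset.univ} := by
    have := Finset.powersetCard_self (Finset.univ : Finset (Fin m))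
    rwa [Finset.card_univ, Fintype.card_fin] at this
  rw [h, Finset.sum_singleton]
  simp

private theorem mp_least {m : ℕ} (q : ℕ → ℂ → ℂ) (S : Set ℂ) (x₀ : ℂ) (hx : x₀ ∈ S)
    (h : q m x₀ = 1) : ∃ J, (∀ j < J, ∀ x ∈ S, q j x = 0) ∧ ∃ x ∈ S, q J x ≠ 0 := by
  classical
  have hex : ∃ J, ∃ x ∈ S, q J x ≠ 0 := ⟨m, x₀, hx, by rw [h]; exact one_ne_zero⟩
  refine ⟨Nat.find hex, ?_, Nat.find_spec hex⟩
  intro j hj x hx
  by_contra hne
  exact Nat.find_min hex hj ⟨x, hx, hne⟩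

private theorem mp_iso (f : ℂ → ℂ) (x₀ : ℂ) (r : ℝ) (hr : 0 < r)
    (hf : DifferentiableOn ℂ f (Metric.ball x₀ r))
    (hne : ∃ x ∈ Metric.ball x₀ r, f x ≠ 0) :
    ∃ r₁, 0 < r₁ ∧ r₁ ≤ r ∧ ∀ x ∈ Metric.ball x₀ r₁, x ≠ x₀ → f x ≠ 0 := by
  have han : AnalyticOnNhd ℂ f (Metric.ball x₀ r) := hf.analyticOnNhd Metric.isOpen_ball
  have h0 : x₀ ∈ Metric.ball x₀ r := Metric.mem_ball_self hr
  rcases (han x₀ h0).eventually_eq_zero_or_eventually_ne_zero with h | h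
  · exfalso
    obtain ⟨x, hx, hx'⟩ := hne
    exact hx' (han.eqOn_zero_of_preconnected_of_eventuallyEq_zero
      (convex_ball x₀ r).isPreconnected h0 h hx)
  · rw [eventually_nhdsWithin_iff, Metric.eventually_nhds_iff_ball] at h
    obtain ⟨ε, hε, h⟩ := h
    exact ⟨min ε r, lt_min hε hr, min_le_right _ _, fun x hx hne =>
      h x (Metric.ball_subset_ball (min_le_left _ _) hx) hne⟩

/-- a function which is holomorphic and of modulus less than one in a punctured disc, with modulus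
near one near the centre, does not exist -/
private theorem mp_max (E : ℂ → ℂ) (x₀ : ℂ) (r : ℝ) (hr : 0 < r)
    (hE : DifferentiableOn ℂ E (Metric.ball x₀ r \ {x₀}))
    (hlt : ∀ x ∈ Metric.ball x₀ r, x ≠ x₀ → ‖E x‖ < 1)
    (hlim : ∀ c : ℝ, c < 1 → ∀ᶠ x in 𝓝[≠] x₀, c ≤ ‖E x‖) : False := by
  have hb : BddAbove (norm ∘ E '' (Metric.ball x₀ r \ {x₀})) := by
    refine ⟨1, ?_⟩
    rintro _ ⟨x, ⟨hx, hx'⟩, rfl⟩
    exact (hlt x hx hx').le
  have hd := Complex.differentiableOn_update_limUnder_of_bddAbove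
    (Metric.ball_mem_nhds x₀ hr) hE hb
  set f : ℂ → ℂ := Function.update E x₀ (limUnder (𝓝[≠] x₀) E) with hf
  have h0 : x₀ ∈ Metric.ball x₀ r := Metric.mem_ball_self hr
  have hfx : ∀ x, x ≠ x₀ → f x = E x := fun x hx => Function.update_of_ne hx _ _
  have hcont : ContinuousAt f x₀ :=
    (hd.differentiableAt (Metric.ball_mem_nhds x₀ hr)).continuousAt
  have hge : ∀ c : ℝ, c < 1 → c ≤ ‖f x₀‖ := by
    intro c hc
    have h1 : Tendsto (fun x => ‖f x‖) (𝓝[≠] x₀) (𝓝 ‖f x₀‖) :=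
      (hcont.norm.tendsto).mono_left nhdsWithin_le_nhds
    refine ge_of_tendsto h1 ?_
    filter_upwards [hlim c hc, self_mem_nhdsWithin] with x hx hx'
    rw [hfx x hx']
    exact hx
  have hge1 : 1 ≤ ‖f x₀‖ := le_of_forall_lt_imp_le_of_dense hge
  have hmax : IsMaxOn (norm ∘ f) (Metric.ball x₀ r) x₀ := by
    intro x hx
    change ‖f x‖ ≤ ‖f x₀‖
    by_cases hxx : x = x₀
    · rw [hxx]
    · rw [hfx x hxx]
      exact (hlt x hx hxx).le.trans hge1
  have hconst := Complex.eqOn_of_isPreconnected_of_isMaxOn_norm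
    (convex_ball x₀ r).isPreconnected Metric.isOpen_ball hd h0 hmax
  have hx1 : x₀ + (r / 2 : ℝ) ∈ Metric.ball x₀ r := by
    rw [Metric.mem_ball, dist_eq_norm, add_sub_cancel_left, Complex.norm_real, Real.norm_eq_abs,
      abs_of_pos (by positivity)]
    linarith
  have hx2 : x₀ + (r / 2 : ℝ) ≠ x₀ := by
    intro h
    have h1 : ((r / 2 : ℝ) : ℂ) = 0 := by linear_combination h
    rw [Complex.ofReal_eq_zero] at h1
    linarith
  have h3 := hconst hx1
  have h4 := hlt _ hx1 hx2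
  rw [← hfx _ hx2, h3] at h4
  exact absurd hge1 (not_le.2 h4)

/-- [IP mp] -/
theorem p_mp : S_pa → S_hx → S_ch → S_co → S_mp := by
  intro hpa hhx hch hco F G L P₀ hF hG hL hFy hL0 hacc N hN
  by_contra hcon
  push Not at hcon
  obtain ⟨x₀, y₀⟩ := P₀
  have hclosed : IsClosed {P : ℂ × ℂ | F P = 0 ∧ G P = 0} :=
    (isClosed_eq hF.continuous continuous_const).inter
      (isClosed_eq hG.continuous continuous_const)
  have hP0 : (x₀, y₀) ∈ {P : ℂ × ℂ | F P = 0 ∧ G P = 0} := by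
    have h1 := mem_closure_iff_clusterPt.2 hacc.clusterPt
    rwa [hclosed.closure_eq] at h1
  obtain ⟨R, hR, ha, ⟨r, hr, hb⟩, hc⟩ := hch F x₀ y₀ hF hP0.1 hFy
  obtain ⟨m, Z, hZ⟩ := hpa F x₀ y₀ r R hF hR hb
  let q : ℕ → ℂ → ℂ := fun J x => mixed (fun i => G (x, Z x i)) (fun _ => 1) J
  have hq : ∀ J, DifferentiableOn ℂ (q J) (Metric.ball x₀ r) := fun J =>
    hhx F G (fun _ => 1) x₀ y₀ r R m Z hZ hG (differentiable_const _) J
  have h0r : x₀ ∈ Metric.ball x₀ r := Metric.mem_ball_self hr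
  obtain ⟨J, hJ1, hJ2⟩ := mp_least (m := m) q (Metric.ball x₀ r) x₀ h0r (mp_mixed_top _)
  obtain ⟨r₁, hr1, hr1r, hiso⟩ := mp_iso (q J) x₀ r hr (hq J) hJ2
  have hsub : Metric.ball x₀ r₁ ⊆ Metric.ball x₀ r := Metric.ball_subset_ball hr1r
  -- the vanishing values
  have hJ : ∀ x ∈ Metric.ball x₀ r₁, x ≠ x₀ →
      (Finset.univ.filter fun i => G (x, Z x i) = 0).card = J ∧
      ∀ b : Fin m → ℂ, mixed (fun i => G (x, Z x i)) b J =
        (∏ i ∈ Finset.univ.filter (fun i => G (x, Z x i) = 0), b i) * q J x := by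
    intro x hx hx0
    exact hco m (fun i => G (x, Z x i)) J (fun j hj => hJ1 j hj x (hsub hx)) (hiso x hx hx0)
  have hFZ : ∀ x ∈ Metric.ball x₀ r, ∀ i, F (x, Z x i) = 0 := by
    intro x hx i
    exact (hZ.zero x hx (Z x i) (Metric.ball_subset_closedBall (hZ.mem x hx i))).2 ⟨i, rfl⟩
  -- (1)
  have hJpos : 0 < J := by
    rw [Nat.pos_iff_ne_zero]
    rintro rfl
    rw [accPt_iff_frequently] at hacc
    apply hacc
    have hU : Metric.ball x₀ r₁ ×ˢ Metric.ball y₀ R ∈ 𝓝 (x₀, y₀) :=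
      prod_mem_nhds (Metric.ball_mem_nhds _ hr1) (Metric.ball_mem_nhds _ hR)
    filter_upwards [hU]
    rintro ⟨x, y⟩ ⟨hx, hy⟩ ⟨hne, hF0, hG0⟩
    by_cases hxx : x = x₀
    · subst hxx
      have := ha y (Metric.ball_subset_closedBall hy) hF0
      subst this
      exact hne rfl
    · obtain ⟨i, hi⟩ := (hZ.zero x (hsub hx) y (Metric.ball_subset_closedBall hy)).1 hF0
      have h1 := (hJ x hx hxx).1
      rw [Finset.card_eq_zero, Finset.filter_eq_empty_iff] at h1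
      exact h1 (Finset.mem_univ i) (by rw [hi]; exact hG0)
  -- the functions `E_H`
  have hEdiff : ∀ H : ℂ × ℂ → ℂ, Differentiable ℂ H →
      DifferentiableOn ℂ (fun x => mixed (fun i => G (x, Z x i)) (fun i => H (x, Z x i)) J / q J x)
        (Metric.ball x₀ r₁ \ {x₀}) := by
    intro H hH
    refine DifferentiableOn.div ?_ ?_ ?_
    · exact (hhx F G H x₀ y₀ r R m Z hZ hG hH J).mono (Set.sdiff_subset.trans hsub)
    · exact (hq J).mono (Set.sdiff_subset.trans hsub)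
    · rintro x ⟨hx, hx'⟩
      exact hiso x hx hx'
  have hEval : ∀ (H : ℂ × ℂ → ℂ), ∀ x ∈ Metric.ball x₀ r₁, x ≠ x₀ →
      mixed (fun i => G (x, Z x i)) (fun i => H (x, Z x i)) J / q J x =
        ∏ i ∈ Finset.univ.filter (fun i => G (x, Z x i) = 0), H (x, Z x i) := by
    intro H x hx hx0
    rw [(hJ x hx hx0).2, mul_div_assoc, div_self (hiso x hx hx0), mul_one]
  have hopen : IsOpen (Metric.ball x₀ r₁ \ {x₀}) := Metric.isOpen_ball.sdiff isClosed_singleton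
  -- (2)
  have hAcc : ∀ x₁ ∈ Metric.ball x₀ r₁, x₁ ≠ x₀ → ∀ i, G (x₁, Z x₁ i) = 0 →
      AccPt (x₁, Z x₁ i) (𝓟 {P : ℂ × ℂ | F P = 0 ∧ G P = 0}) := by
    intro x₁ hx₁ hx₁0 i hi
    rw [accPt_iff_frequently, frequently_iff]
    intro U hU
    obtain ⟨η, hη, hball⟩ := Metric.mem_nhds_iff.1 hU
    have hHd : Differentiable ℂ (fun P : ℂ × ℂ => P.2 - Z x₁ i) :=
      differentiable_snd.sub_const _
    have hmem : x₁ ∈ Metric.ball x₀ r₁ \ {x₀} := ⟨hx₁, hx₁0⟩
    have hcont := ((hEdiff _ hHd).differentiableAt (hopen.mem_nhds hmem)).continuousAt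
    have hval : mixed (fun i => G (x₁, Z x₁ i)) (fun j => Z x₁ j - Z x₁ i) J / q J x₁ = 0 := by
      rw [hEval (fun P => P.2 - Z x₁ i) x₁ hx₁ hx₁0]
      exact Finset.prod_eq_zero (Finset.mem_filter.2 ⟨Finset.mem_univ i, hi⟩) (sub_self _)
    have htend : Tendsto (fun x => ‖mixed (fun i => G (x, Z x i))
        (fun j => Z x j - Z x₁ i) J / q J x‖) (𝓝 x₁) (𝓝 0) := by
      have h1 := hcont.norm.tendsto
      rw [hval, norm_zero] at h1
      exact h1
    have hηJ : 0 < η ^ J := pow_pos hη J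
    have hev := htend.eventually (gt_mem_nhds hηJ)
    have hev2 : ∀ᶠ x in 𝓝 x₁, x ∈ Metric.ball x₀ r₁ \ {x₀} := hopen.mem_nhds hmem
    have hev3 : ∀ᶠ x in 𝓝 x₁, x ∈ Metric.ball x₁ η := Metric.ball_mem_nhds _ hη
    have hev4 : ∀ᶠ x in 𝓝[≠] x₁, x ≠ x₁ := self_mem_nhdsWithin
    obtain ⟨x, ⟨hx1, ⟨hx2, hx2'⟩, hx3⟩, hx4⟩ :=
      (((hev.and (hev2.and hev3)).filter_mono nhdsWithin_le_nhds).and hev4).exists
    have hx20 : x ≠ x₀ := hx2'
    rw [hEval (fun P => P.2 - Z x₁ i) x hx2 hx20, norm_prod] at hx1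
    obtain ⟨j, hj, hjη⟩ : ∃ j ∈ Finset.univ.filter (fun i => G (x, Z x i) = 0),
        ‖Z x j - Z x₁ i‖ < η := by
      by_contra hno
      push Not at hno
      have h1 : ∏ _j ∈ Finset.univ.filter (fun i => G (x, Z x i) = 0), η ≤
          ∏ j ∈ Finset.univ.filter (fun i => G (x, Z x i) = 0), ‖Z x j - Z x₁ i‖ :=
        Finset.prod_le_prod (fun _ _ => hη.le) hno
      rw [Finset.prod_const, (hJ x hx2 hx20).1] at h1
      exact absurd hx1 (not_lt.2 h1)
    refine ⟨(x, Z x j), hball ?_, ?_, hFZ x (hsub hx2) j, (Finset.mem_filter.1 hj).2⟩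
    · rw [Metric.mem_ball, Prod.dist_eq]
      refine max_lt hx3 ?_
      rw [dist_eq_norm]
      exact hjη
    · intro h
      exact hx4 (Prod.mk.inj h).1
  -- (3)
  obtain ⟨ρ, hρ, hNρ⟩ := Metric.mem_nhds_iff.1 hN
  obtain ⟨δ, hδ, hcδ⟩ := hc ρ hρ
  have hnear : ∀ ρ' δ' : ℝ, (∀ x ∈ Metric.ball x₀ δ', ∀ y ∈ Metric.closedBall y₀ R, F (x, y) = 0 →
      y ∈ Metric.ball y₀ ρ') → ∀ x ∈ Metric.ball x₀ (min r₁ (min ρ' δ')), ∀ i,
      (x, Z x i) ∈ Metric.ball (x₀, y₀) ρ' := by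
    intro ρ' δ' h x hx i
    have hx1 : x ∈ Metric.ball x₀ r₁ := Metric.ball_subset_ball (min_le_left _ _) hx
    have hx2 : x ∈ Metric.ball x₀ ρ' :=
      Metric.ball_subset_ball ((min_le_right _ _).trans (min_le_left _ _)) hx
    have hx3 : x ∈ Metric.ball x₀ δ' :=
      Metric.ball_subset_ball ((min_le_right _ _).trans (min_le_right _ _)) hx
    rw [Metric.mem_ball, Prod.dist_eq]
    exact max_lt hx2 (h x hx3 (Z x i)
      (Metric.ball_subset_closedBall (hZ.mem x (hsub hx1) i)) (hFZ x (hsub hx1) i))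
  have hnorm : ∀ x ∈ Metric.ball x₀ r₁, x ≠ x₀ →
      ‖mixed (fun i => G (x, Z x i)) (fun i => Complex.exp (L (x, Z x i))) J / q J x‖ =
        Real.exp (∑ i ∈ Finset.univ.filter (fun i => G (x, Z x i) = 0), (L (x, Z x i)).re) := by
    intro x hx hx0
    rw [hEval (fun P => Complex.exp (L P)) x hx hx0, norm_prod, Real.exp_sum]
    exact Finset.prod_congr rfl fun i _ => Complex.norm_exp _
  refine mp_max (fun x => mixed (fun i => G (x, Z x i)) (fun i => Complex.exp (L (x, Z x i))) J /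
    q J x) x₀ (min r₁ (min ρ δ)) (lt_min hr1 (lt_min hρ hδ)) ?_ ?_ ?_
  · refine (hEdiff (fun P => Complex.exp (L P)) hL.cexp).mono ?_
    rintro x ⟨hx, hx'⟩
    exact ⟨Metric.ball_subset_ball (min_le_left _ _) hx, hx'⟩
  · intro x hx hx0
    have hx1 : x ∈ Metric.ball x₀ r₁ := Metric.ball_subset_ball (min_le_left _ _) hx
    beta_reduce
    rw [hnorm x hx1 hx0, Real.exp_lt_one_iff]
    refine Finset.sum_neg (fun i hi => ?_) ?_
    · refine hcon (x, Z x i) (hNρ (hnear ρ δ hcδ x hx i)) ?_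
        (hAcc x hx1 hx0 i (Finset.mem_filter.1 hi).2)
      intro h
      exact hx0 (Prod.mk.inj h).1
    · rw [← Finset.card_pos, (hJ x hx1 hx0).1]
      exact hJpos
  · intro c hc1
    have hJ' : (0 : ℝ) < J := by exact_mod_cast hJpos
    have hη : 0 < (1 - c) / J := div_pos (by linarith) hJ'
    have hLc : Tendsto (fun P => ‖L P‖) (𝓝 (x₀, y₀)) (𝓝 0) := by
      have h1 := (hL.continuous.continuousAt (x := (x₀, y₀))).norm.tendsto
      rw [hL0, norm_zero] at h1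
      exact h1
    obtain ⟨ρ', hρ', hLρ⟩ := Metric.eventually_nhds_iff_ball.1
      (hLc.eventually (gt_mem_nhds hη))
    obtain ⟨δ', hδ', hcδ'⟩ := hc ρ' hρ'
    have hev : ∀ᶠ x in 𝓝[≠] x₀, x ∈ Metric.ball x₀ (min r₁ (min ρ' δ')) :=
      nhdsWithin_le_nhds (Metric.ball_mem_nhds _ (lt_min hr1 (lt_min hρ' hδ')))
    filter_upwards [hev, self_mem_nhdsWithin] with x hx hx0
    have hx1 : x ∈ Metric.ball x₀ r₁ := Metric.ball_subset_ball (min_le_left _ _) hx
    rw [hnorm x hx1 hx0]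
    have h1 : ∑ _i ∈ Finset.univ.filter (fun i => G (x, Z x i) = 0), (-((1 - c) / J)) ≤
        ∑ i ∈ Finset.univ.filter (fun i => G (x, Z x i) = 0), (L (x, Z x i)).re := by
      refine Finset.sum_le_sum fun i _ => ?_
      have h2 := hLρ _ (hnear ρ' δ' hcδ' x hx i)
      have h3 := (abs_le.1 (Complex.abs_re_le_norm (L (x, Z x i)))).1
      linarith
    rw [Finset.sum_const, (hJ x hx1 hx0).1, nsmul_eq_mul] at h1
    have h4 : (J : ℝ) * -((1 - c) / J) = c - 1 := by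
      field_simp
      ring
    rw [h4] at h1
    have h5 := Real.add_one_le_exp (∑ i ∈ Finset.univ.filter (fun i => G (x, Z x i) = 0),
      (L (x, Z x i)).re)
    linarith

end Pool.Agent.MP_2f2443_an.IP
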