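import Pool.Agent.Lib.MP_2f2443_an.IP.Stm

/-!
# A maximum point of `psi` on the set of accumulation points
-/

set_option autoImplicit false

namespace Pool.Agent.MP_2f2443_an.IP

open Filter Topology

/-- **mx**. -/
theorem p_mx : S_mx := by
  intro hen hcr k hk q hq p r hP
  obtain ⟨-, -, -, hacc, hcont, hper, -⟩ := hen k
  obtain ⟨hcl, hsub, htr⟩ := hacc q p r
  obtain ⟨P₁, hP₁⟩ := hP
  obtain ⟨B, hB⟩ := hcr k hk q hq p r (psi k q P₁)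
  have hmove : ∀ P : ℂ × ℂ, AccPt P (𝓟 (PerC k q p r)) → ∃ P' : ℂ × ℂ,
      AccPt P' (𝓟 (PerC k q p r)) ∧ psi k q P' = psi k q P ∧ 0 ≤ P'.1.re ∧ P'.1.re ≤ 1 := by
    intro P hPa
    refine ⟨(P.1 + ((-⌊P.1.re⌋ : ℤ) : ℂ), P.2), htr P hPa _, hper q P _, ?_, ?_⟩
    · have h1 : ((P.1 + ((-⌊P.1.re⌋ : ℤ) : ℂ)) : ℂ).re = P.1.re + ((-⌊P.1.re⌋ : ℤ) : ℝ) := by
        rw [Complex.add_re, Complex.intCast_re]
      change 0 ≤ ((P.1 + ((-⌊P.1.re⌋ : ℤ) : ℂ)) : ℂ).re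
      rw [h1]
      push_cast
      linarith [Int.floor_le P.1.re]
    · have h1 : ((P.1 + ((-⌊P.1.re⌋ : ℤ) : ℂ)) : ℂ).re = P.1.re + ((-⌊P.1.re⌋ : ℤ) : ℝ) := by
        rw [Complex.add_re, Complex.intCast_re]
      change ((P.1 + ((-⌊P.1.re⌋ : ℤ) : ℂ)) : ℂ).re ≤ 1
      rw [h1]
      push_cast
      linarith [Int.lt_floor_add_one P.1.re]
  have hclS : IsClosed ({P : ℂ × ℂ | AccPt P (𝓟 (PerC k q p r))} ∩
      ({P : ℂ × ℂ | psi k q P₁ ≤ psi k q P} ∩ {P : ℂ × ℂ | 0 ≤ P.1.re ∧ P.1.re ≤ 1})) := by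
    refine hcl.inter ((isClosed_le continuous_const (hcont q)).inter ?_)
    have hre : Continuous fun P : ℂ × ℂ => P.1.re := Complex.continuous_re.comp continuous_fst
    exact (isClosed_le continuous_const hre).inter (isClosed_le hre continuous_const)
  have hbS : Bornology.IsBounded ({P : ℂ × ℂ | AccPt P (𝓟 (PerC k q p r))} ∩
      ({P : ℂ × ℂ | psi k q P₁ ≤ psi k q P} ∩ {P : ℂ × ℂ | 0 ≤ P.1.re ∧ P.1.re ≤ 1})) := by
    refine (Metric.isBounded_closedBall (x := (0 : ℂ × ℂ)) (r := 1 + |B|)).subset ?_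
    rintro P ⟨h1, h2, h3, h4⟩
    obtain ⟨h5, h6⟩ := hB P (hsub h1) h2
    rw [mem_closedBall_zero_iff, Prod.norm_def]
    have h7 : B ≤ |B| := le_abs_self B
    refine max_le ?_ (by linarith)
    have h8 := Complex.norm_le_abs_re_add_abs_im P.1
    have h9 : |P.1.re| ≤ 1 := abs_le.2 ⟨by linarith, h4⟩
    linarith
  have hcomp := Metric.isCompact_of_isClosed_isBounded hclS hbS
  obtain ⟨P₂, hP₂a, hP₂b, hP₂c, hP₂d⟩ := hmove P₁ hP₁
  obtain ⟨P₀, ⟨h0a, h0b, h0c⟩, hmax⟩ := hcomp.exists_isMaxOn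
    ⟨P₂, hP₂a, le_of_eq hP₂b.symm, hP₂c, hP₂d⟩ (hcont q).continuousOn
  refine ⟨P₀, h0a, ?_⟩
  intro P hPa
  by_cases hle : psi k q P₁ ≤ psi k q P
  · obtain ⟨P', ha, hb, hc, hd⟩ := hmove P hPa
    have h1 : psi k q P' ≤ psi k q P₀ := hmax ⟨ha, by
      change psi k q P₁ ≤ psi k q P'
      rw [hb]
      exact hle, hc, hd⟩
    rw [hb] at h1
    exact h1
  · exact (not_le.1 hle).le.trans h0b

end Pool.Agent.MP_2f2443_an.IP
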