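import Pool.Agent.Lib.MP_2f2443_an.IP.Stm

/-!
# MP_2f2443_an, project IP: piece ne
-/

set_option autoImplicit false

namespace Pool.Agent.MP_2f2443_an.IP

private theorem ne_sin (z : ℂ) : ‖Complex.sin z‖ ≤ Real.exp |z.im| := by
  have h1 : Complex.sin z = (Complex.exp (-z * Complex.I) - Complex.exp (z * Complex.I)) *
      Complex.I / 2 := rfl
  have h2 : ‖Complex.exp (-z * Complex.I)‖ = Real.exp z.im := by
    rw [Complex.norm_exp]
    simp
  have h3 : ‖Complex.exp (z * Complex.I)‖ = Real.exp (-z.im) := by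
    rw [Complex.norm_exp]
    simp
  rw [h1, norm_div, norm_mul, Complex.norm_I, mul_one, Complex.norm_ofNat]
  have h4 := norm_sub_le (Complex.exp (-z * Complex.I)) (Complex.exp (z * Complex.I))
  rw [h2, h3] at h4
  have h5 : Real.exp z.im ≤ Real.exp |z.im| := Real.exp_le_exp.2 (le_abs_self _)
  have h6 : Real.exp (-z.im) ≤ Real.exp |z.im| := Real.exp_le_exp.2 (neg_le_abs _)
  linarith

private theorem ne_V (k z : ℂ) (B : ℝ) (h : |z.im| ≤ B) :
    ‖VC k z‖ ≤ ‖k‖ / (2 * Real.pi) * Real.exp (2 * Real.pi * B) := by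
  unfold VC
  rw [norm_mul, norm_div, norm_mul, Complex.norm_ofNat, Complex.norm_real, Real.norm_eq_abs,
    abs_of_pos Real.pi_pos]
  refine mul_le_mul_of_nonneg_left ?_ (by positivity)
  refine (ne_sin _).trans (Real.exp_le_exp.2 ?_)
  have h1 : (2 * (Real.pi : ℂ) * z).im = 2 * Real.pi * z.im := by
    have : (2 * (Real.pi : ℂ) * z) = ((2 * Real.pi : ℝ) : ℂ) * z := by push_cast; ring
    rw [this, Complex.im_ofReal_mul]
  rw [h1, abs_mul, abs_of_pos (by positivity)]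
  exact mul_le_mul_of_nonneg_left h (by positivity)

private theorem ne_bd (k x : ℂ) (n : ℕ) : ∃ C : ℝ, ∀ y : ℝ,
    ‖((SMC k)^[n] (x, (y : ℂ))).1 - (x + n * y)‖ ≤ C ∧
    ‖((SMC k)^[n] (x, (y : ℂ))).2 - y‖ ≤ C := by
  induction n with
  | zero =>
    refine ⟨0, fun y => ?_⟩
    simp
  | succ n ih =>
    obtain ⟨C, hC⟩ := ih
    have hC0 : 0 ≤ C := (norm_nonneg _).trans (hC 0).1
    refine ⟨C + C + ‖k‖ / (2 * Real.pi) * Real.exp (2 * Real.pi * (|x.im| + (C + C))), fun y => ?_⟩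
    obtain ⟨h1, h2⟩ := hC y
    rw [Function.iterate_succ_apply']
    set P := (SMC k)^[n] (x, (y : ℂ)) with hP
    have h3 : (SMC k P).1 = P.1 + P.2 := rfl
    have h4 : (SMC k P).2 = P.2 + VC k (P.1 + P.2) := rfl
    have h5 : ‖(P.1 + P.2) - (x + ((n + 1 : ℕ) : ℂ) * y)‖ ≤ C + C := by
      have h6 : (P.1 + P.2) - (x + ((n + 1 : ℕ) : ℂ) * y) =
          (P.1 - (x + n * y)) + (P.2 - y) := by
        push_cast
        ring
      rw [h6]
      exact (norm_add_le _ _).trans (add_le_add h1 h2)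
    have h7 : |(P.1 + P.2).im| ≤ |x.im| + (C + C) := by
      have h8 : (P.1 + P.2).im = x.im + ((P.1 + P.2) - (x + ((n + 1 : ℕ) : ℂ) * y)).im := by
        simp [Complex.sub_im, Complex.add_im, Complex.mul_im]
      rw [h8]
      exact (abs_add_le _ _).trans (add_le_add_right
        ((Complex.abs_im_le_norm _).trans h5) _)
    have h9 := ne_V k (P.1 + P.2) _ h7
    have h10 : 0 ≤ ‖k‖ / (2 * Real.pi) * Real.exp (2 * Real.pi * (|x.im| + (C + C))) := by
      positivity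
    constructor
    · rw [h3]
      linarith
    · rw [h4]
      have h11 : P.2 + VC k (P.1 + P.2) - y = (P.2 - y) + VC k (P.1 + P.2) := by ring
      rw [h11]
      refine (norm_add_le _ _).trans ?_
      linarith

theorem p_ne : S_ne := by
  intro k q hq p x
  by_contra hcon
  push Not at hcon
  obtain ⟨C, hC⟩ := ne_bd k x q
  have hC0 : 0 ≤ C := (norm_nonneg _).trans (hC 0).1
  have h1 := (hC (C + 1 + |(p : ℝ)|)).1
  rw [hcon] at h1
  have h2 : (x + (p : ℂ)) - (x + (q : ℂ) * ((C + 1 + |(p : ℝ)| : ℝ) : ℂ)) =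
      (((p : ℝ) - q * (C + 1 + |(p : ℝ)|) : ℝ) : ℂ) := by
    push_cast
    ring
  rw [h2, Complex.norm_real, Real.norm_eq_abs] at h1
  have h3 : (1 : ℝ) ≤ q := by exact_mod_cast hq
  have h4 : (C + 1 + |(p : ℝ)|) ≤ q * (C + 1 + |(p : ℝ)|) := by
    have : 0 ≤ C + 1 + |(p : ℝ)| := by positivity
    nlinarith
  have h5 := neg_abs_le ((p : ℝ) - q * (C + 1 + |(p : ℝ)|))
  have h6 := le_abs_self (p : ℝ)
  linarith

end Pool.Agent.MP_2f2443_an.IP
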