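import Pool.Agent.Lib.MP_2f2443_an.IP.Stm

/-! # Newton identities and differentiability -/

set_option autoImplicit false

namespace Pool.Agent.MP_2f2443_an.IP

open Filter Topology

theorem p_nw : S_nw := by
  intro m u S hps
  have hpsum : ∀ j : ℕ, 0 < j → DifferentiableOn ℂ
      (fun x => MvPolynomial.aeval (u x) (MvPolynomial.psum (Fin m) ℂ j)) S := by
    intro j hj
    have h := hps j hj
    simp only [MvPolynomial.psum, map_sum, map_pow, MvPolynomial.aeval_X]
    exact h
  have hes : ∀ k : ℕ, DifferentiableOn ℂ
      (fun x => MvPolynomial.aeval (u x) (MvPolynomial.esymm (Fin m) ℂ k)) S := by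
    intro k
    induction k using Nat.strong_induction_on with
    | _ k ih =>
      rcases Nat.eq_zero_or_pos k with hk | hk
      · subst hk
        simp only [MvPolynomial.esymm_zero, map_one]
        exact differentiableOn_const 1
      · have hid : ∀ x, MvPolynomial.aeval (u x) (MvPolynomial.esymm (Fin m) ℂ k) =
            (k : ℂ)⁻¹ * ((-1) ^ (k + 1) *
              ∑ a ∈ (Finset.HasAntidiagonal.antidiagonal k).filter (fun a => a.1 < k),
                (-1) ^ a.1 * MvPolynomial.aeval (u x) (MvPolynomial.esymm (Fin m) ℂ a.1) *
                  MvPolynomial.aeval (u x) (MvPolynomial.psum (Fin m) ℂ a.2)) := by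
          intro x
          have hN := MvPolynomial.mul_esymm_eq_sum (Fin m) ℂ k
          have hN2 := congrArg (MvPolynomial.aeval (u x)) hN
          simp only [map_mul, map_natCast, map_pow, map_neg, map_one, map_sum] at hN2
          have hk0 : (k : ℂ) ≠ 0 := Nat.cast_ne_zero.mpr hk.ne'
          rw [← hN2, ← mul_assoc, inv_mul_cancel₀ hk0, one_mul]
        have hfun : (fun x => MvPolynomial.aeval (u x) (MvPolynomial.esymm (Fin m) ℂ k)) =
            fun x => (k : ℂ)⁻¹ * ((-1) ^ (k + 1) *
              ∑ a ∈ (Finset.HasAntidiagonal.antidiagonal k).filter (fun a => a.1 < k),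
                (-1) ^ a.1 * MvPolynomial.aeval (u x) (MvPolynomial.esymm (Fin m) ℂ a.1) *
                  MvPolynomial.aeval (u x) (MvPolynomial.psum (Fin m) ℂ a.2)) := funext hid
        rw [hfun]
        refine (DifferentiableOn.fun_sum ?_).const_mul _ |>.const_mul _
        intro a ha
        rw [Finset.mem_filter, Finset.HasAntidiagonal.mem_antidiagonal] at ha
        exact ((ih a.1 ha.2).const_mul _).mul (hpsum a.2 (by omega))
  have h := hes m
  have hm : (fun x => MvPolynomial.aeval (u x) (MvPolynomial.esymm (Fin m) ℂ m)) =
      fun x => ∏ i, u x i := by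
    funext x
    have hc : Finset.powersetCard m (Finset.univ : Finset (Fin m)) = {Finset.univ} := by
      have h1 := Finset.powersetCard_self (Finset.univ : Finset (Fin m))
      rwa [Finset.card_univ, Fintype.card_fin] at h1
    simp only [MvPolynomial.esymm, hc, Finset.sum_singleton, map_prod, MvPolynomial.aeval_X]
  rw [hm] at h
  exact h

end Pool.Agent.MP_2f2443_an.IP
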