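import Pool.Agent.Lib.MP_2f2443_an.IP.Stm

/-!
# Piece or: orbits on an invariant circle, the rotation number
-/

set_option autoImplicit false

namespace Pool.Agent.MP_2f2443_an.IP

private lemma or_orbit (k : ℝ) (h : ℝ → ℝ) (H : Circ k h) (n : ℕ) (x : ℝ) :
    (SMR k)^[n] (x, h x - x) = (h^[n] x, h^[n + 1] x - h^[n] x) := by
  induction n with
  | zero => rfl
  | succ n ih =>
    rw [Function.iterate_succ_apply', ih]
    have h1 : h^[n + 1] x = h (h^[n] x) := Function.iterate_succ_apply' h n x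
    have h2 : h^[n + 1 + 1] x = h (h (h^[n] x)) := by
      rw [Function.iterate_succ_apply', h1]
    have h3 := H.eq (h^[n] x)
    rw [h2, h1]
    simp only [SMR]
    refine Prod.ext ?_ ?_
    · show h^[n] x + (h (h^[n] x) - h^[n] x) = h (h^[n] x)
      ring
    · show h (h^[n] x) - h^[n] x + VR k (h^[n] x + (h (h^[n] x) - h^[n] x)) =
        h (h (h^[n] x)) - h (h^[n] x)
      have h4 : h^[n] x + (h (h^[n] x) - h^[n] x) = h (h^[n] x) := by ring
      rw [h4, h3]
      ring

private lemma or_unique (h : ℝ → ℝ) (τ τ' : ℝ) (H : HasRot h τ) (H' : HasRot h τ') : τ' = τ := by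
  by_contra hne
  have hpos : 0 < |τ' - τ| := abs_pos.2 (sub_ne_zero.2 hne)
  obtain ⟨n, hn⟩ := exists_nat_gt (2 / |τ' - τ|)
  rw [div_lt_iff₀ hpos] at hn
  have h1 := H n 0
  have h2 := H' n 0
  have h3 : (n : ℝ) * |τ' - τ| = |(h^[n] 0 - 0 - n * τ) - (h^[n] 0 - 0 - n * τ')| := by
    have h4 : (h^[n] 0 - 0 - n * τ) - (h^[n] 0 - 0 - n * τ') = (n : ℝ) * (τ' - τ) := by ring
    rw [h4, abs_mul, Nat.abs_cast]
  have h5 := abs_sub (h^[n] 0 - 0 - n * τ) (h^[n] 0 - 0 - n * τ')
  rw [← h3] at h5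
  linarith

private lemma or_lift (h : ℝ → ℝ) (hm : StrictMono h) (h1 : ∀ x, h (x + 1) = h x + 1) :
    ∃ f : CircleDeg1Lift, (⇑f : ℝ → ℝ) = h :=
  ⟨⟨⟨h, hm.monotone⟩, h1⟩, rfl⟩

private lemma or_hasRot (f : CircleDeg1Lift) : HasRot f f.translationNumber := by
  intro n x
  have hp : (f ^ n).translationNumber = n * f.translationNumber := f.translationNumber_pow n
  have hc : (f ^ n) x = f^[n] x := by rw [CircleDeg1Lift.coe_pow]
  rw [← hc, ← hp, abs_le]
  constructor
  · have h1 : ((⌈(f ^ n).translationNumber⌉ - 1 : ℤ) : ℝ) < (f ^ n).translationNumber := by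
      have := Int.ceil_lt_add_one (f ^ n).translationNumber
      push_cast
      linarith
    have h2 := (f ^ n).lt_map_of_int_lt_translationNumber h1 x
    have h3 := Int.le_ceil (f ^ n).translationNumber
    push_cast at h2
    linarith
  · have h1 : (f ^ n).translationNumber < ((⌊(f ^ n).translationNumber⌋ + 1 : ℤ) : ℝ) := by
      have := Int.lt_floor_add_one (f ^ n).translationNumber
      push_cast
      linarith
    have h2 := (f ^ n).map_lt_of_translationNumber_lt_int h1 x
    have h3 := Int.floor_le (f ^ n).translationNumber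
    push_cast at h2
    linarith

theorem p_or : S_or := by
  refine ⟨or_orbit, ?_⟩
  intro h hc hm h1
  obtain ⟨f, hf⟩ := or_lift h hm h1
  have hR : HasRot h f.translationNumber := by
    have := or_hasRot f
    rwa [hf] at this
  refine ⟨⟨_, hR⟩, ?_⟩
  intro τ hτ
  refine ⟨fun τ' hτ' => or_unique h τ τ' hτ hτ', ?_⟩
  have hτf : τ = f.translationNumber := or_unique h _ τ hR hτ
  intro q _ p
  have hp : (f ^ q).translationNumber = q * τ := by
    rw [f.translationNumber_pow q, hτf]
  have hcoe : ∀ x, (f ^ q) x = h^[q] x := by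
    intro x
    rw [CircleDeg1Lift.coe_pow, hf]
  refine ⟨?_, ?_, ?_⟩
  · intro hlt x
    rw [← hcoe]
    rw [← hp] at hlt
    exact (f ^ q).map_lt_of_translationNumber_lt_int hlt x
  · intro hlt x
    rw [← hcoe]
    rw [← hp] at hlt
    exact (f ^ q).lt_map_of_int_lt_translationNumber hlt x
  · intro heq
    have hcq : Continuous (f ^ q) := by
      rw [CircleDeg1Lift.coe_pow, hf]
      exact hc.iterate q
    obtain ⟨x, hx⟩ := (f ^ q).exists_eq_add_translationNumber hcq
    refine ⟨x, ?_⟩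
    rw [← hcoe, hx, hp, heq]

end Pool.Agent.MP_2f2443_an.IP
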