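import Pool.Agent.Lib.MP_2f2443_an.IP.Stm

/-!
# MP_2f2443_an, project IP: the roots depending on a parameter
-/

set_option autoImplicit false

namespace Pool.Agent.MP_2f2443_an.IP

open Filter Topology Metric MeasureTheory

/-- An integral of holomorphic functions is holomorphic in the parameter. -/
lemma pa_hol {g : ℂ → ℝ → ℂ} {U : Set ℂ} (hU : IsOpen U)
    (hc : ContinuousOn (Function.uncurry g) (U ×ˢ Set.univ))
    (hd : ∀ θ, DifferentiableOn ℂ (fun x => g x θ) U) (b : ℝ) (hb : 0 ≤ b) :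
    DifferentiableOn ℂ (fun x => ∫ θ in (0 : ℝ)..b, g x θ) U := by
  intro x₁ hx₁
  obtain ⟨ε, hε, hεU⟩ := Metric.isOpen_iff.1 hU x₁ hx₁
  set ρ := ε / 3 with hρ
  have hρ0 : 0 < ρ := by positivity
  have hsub : closedBall x₁ (2 * ρ) ⊆ U :=
    (closedBall_subset_ball (by rw [hρ]; linarith)).trans hεU
  have hcθ : ∀ x ∈ U, Continuous (fun θ => g x θ) := by
    intro x hx
    have h1 : ContinuousOn (fun θ : ℝ => Function.uncurry g (x, θ)) Set.univ :=
      hc.comp (by fun_prop) (fun θ _ => ⟨hx, trivial⟩)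
    exact continuousOn_univ.1 h1
  have hK : IsCompact (closedBall x₁ (2 * ρ) ×ˢ Set.Icc (0 : ℝ) b) :=
    (isCompact_closedBall _ _).prod isCompact_Icc
  obtain ⟨C, hC⟩ := hK.exists_bound_of_continuousOn
    (hc.mono (Set.prod_mono hsub (Set.subset_univ _)))
  have hbd : ∀ θ ∈ Set.Icc (0 : ℝ) b, ∀ x ∈ ball x₁ ρ,
      ‖deriv (fun x => g x θ) x‖ ≤ C / ρ := by
    intro θ hθ x hx
    have h1 : closedBall x ρ ⊆ closedBall x₁ (2 * ρ) :=
      closedBall_subset_closedBall' (by rw [mem_ball] at hx; linarith)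
    apply Complex.norm_deriv_le_of_forall_mem_sphere_norm_le hρ0
    · exact (hd θ).diffContOnCl_ball (h1.trans hsub)
    · intro z hz
      exact hC (z, θ) ⟨h1 (sphere_subset_closedBall hz), hθ⟩
  have hball : ball x₁ ρ ⊆ U := (ball_subset_closedBall.trans
    (closedBall_subset_closedBall (by linarith))).trans hsub
  have hder : ∀ θ, ∀ x ∈ ball x₁ ρ, HasDerivAt (fun x => g x θ)
      (deriv (fun x => g x θ) x) x := by
    intro θ x hx
    exact ((hd θ).differentiableAt (hU.mem_nhds (hball hx))).hasDerivAt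
  have ht0 : Tendsto (fun n : ℕ => ((ρ / (n + 2) : ℝ) : ℂ)) atTop (𝓝[≠] 0) := by
    rw [tendsto_nhdsWithin_iff]
    constructor
    · have h1 : Tendsto (fun n : ℕ => (ρ / (n + 2) : ℝ)) atTop (𝓝 0) := by
        apply Tendsto.div_atTop tendsto_const_nhds
        exact tendsto_atTop_add_const_right _ _ tendsto_natCast_atTop_atTop
      have h2 := (Complex.continuous_ofReal.tendsto 0).comp h1
      rw [Complex.ofReal_zero] at h2
      exact h2
    · filter_upwards with n
      simp only [Set.mem_compl_iff, Set.mem_singleton_iff]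
      intro h
      have h3 : (ρ / (n + 2) : ℝ) = 0 := by exact_mod_cast h
      have h4 : (0 : ℝ) < ρ / (n + 2) := by positivity
      linarith
  have hin : ∀ n : ℕ, x₁ + ((ρ / (n + 2) : ℝ) : ℂ) ∈ ball x₁ ρ := by
    intro n
    rw [mem_ball, dist_eq_norm, add_sub_cancel_left, Complex.norm_real, Real.norm_eq_abs,
      abs_of_pos (by positivity), div_lt_iff₀ (by positivity)]
    have : (0 : ℝ) ≤ n := Nat.cast_nonneg n
    nlinarith
  have hmeas : AEStronglyMeasurable (fun θ => deriv (fun x => g x θ) x₁)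
      (volume.restrict (Set.uIoc 0 b)) := by
    refine aestronglyMeasurable_of_tendsto_ae atTop
      (f := fun (n : ℕ) θ => ((ρ / (n + 2) : ℝ) : ℂ)⁻¹ •
        (g (x₁ + ((ρ / (n + 2) : ℝ) : ℂ)) θ - g x₁ θ)) ?_ ?_
    · intro n
      apply Continuous.aestronglyMeasurable
      change Continuous fun θ => (((ρ / (n + 2) : ℝ) : ℂ)⁻¹ *
        (g (x₁ + ((ρ / (n + 2) : ℝ) : ℂ)) θ - g x₁ θ))
      exact continuous_const.mul ((hcθ _ (hball (hin n))).sub (hcθ _ hx₁))
    · filter_upwards with θ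
      exact (hasDerivAt_iff_tendsto_slope_zero.1 (hder θ x₁ (mem_ball_self hρ0))).comp ht0
  have hfin := intervalIntegral.hasDerivAt_integral_of_dominated_loc_of_deriv_le (𝕜 := ℂ)
    (μ := volume) (F := g) (F' := fun x θ => deriv (fun x => g x θ) x) (x₀ := x₁) (a := 0)
    (b := b) (bound := fun _ => C / ρ) (ball_mem_nhds x₁ hρ0)
    (by
      filter_upwards [ball_mem_nhds x₁ hρ0] with x hx
      exact (hcθ x (hball hx)).aestronglyMeasurable)
    ((hcθ x₁ hx₁).intervalIntegrable _ _) hmeas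
    (by
      filter_upwards with θ hθ x hx
      rw [Set.uIoc_of_le hb] at hθ
      exact hbd θ ⟨hθ.1.le, hθ.2⟩ x hx)
    intervalIntegrable_const
    (by
      filter_upwards with θ hθ x hx
      exact hder θ x hx)
  exact hfin.2.differentiableAt.differentiableWithinAt

/-- The derivative in the second variable as an integral. -/
lemma pa_cauchy {F : ℂ × ℂ → ℂ} (hF : Differentiable ℂ F) (x w : ℂ) :
    deriv (fun t => F (x, t)) w = (2 * Real.pi * Complex.I)⁻¹ *
      ∫ θ in (0 : ℝ)..2 * Real.pi, (circleMap 0 1 θ * Complex.I) *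
        ((1 / circleMap 0 1 θ ^ 2) * F (x, w + circleMap 0 1 θ)) := by
  have h1 : DifferentiableOn ℂ (fun t => F (x, t)) (closedBall w 1) :=
    (hF.comp (by fun_prop)).differentiableOn
  have h2 := h1.deriv_eq_smul_circleIntegral one_pos
  have h3 : (2 * Real.pi * Complex.I : ℂ) ≠ 0 := Complex.two_pi_I_ne_zero
  have h4 : (∮ z in C(w, 1), (1 / (z - w) ^ 2) • F (x, z)) =
      ∫ θ in (0 : ℝ)..2 * Real.pi, (circleMap 0 1 θ * Complex.I) *
        ((1 / circleMap 0 1 θ ^ 2) * F (x, w + circleMap 0 1 θ)) := by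
    unfold circleIntegral
    apply intervalIntegral.integral_congr
    intro θ _
    have e1 : circleMap w 1 θ = w + circleMap 0 1 θ := by simp [circleMap]
    simp only [deriv_circleMap, smul_eq_mul, e1, add_sub_cancel_left]
  rw [← h4, h2, smul_eq_mul, ← mul_assoc, inv_mul_cancel₀ h3, one_mul]

lemma pa_circ_ne (θ : ℝ) : circleMap 0 1 θ ≠ 0 := by
  simp [circleMap]

lemma pa_cont {F : ℂ × ℂ → ℂ} (hF : Differentiable ℂ F) :
    Continuous (fun P : ℂ × ℂ => deriv (fun t => F (P.1, t)) P.2) := by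
  have h1 : (fun P : ℂ × ℂ => deriv (fun t => F (P.1, t)) P.2) =
      fun P : ℂ × ℂ => (2 * Real.pi * Complex.I)⁻¹ *
      ∫ θ in (0 : ℝ)..2 * Real.pi, (circleMap 0 1 θ * Complex.I) *
        ((1 / circleMap 0 1 θ ^ 2) * F (P.1, P.2 + circleMap 0 1 θ)) := by
    funext P
    exact pa_cauchy hF P.1 P.2
  rw [h1]
  apply continuous_const.mul
  apply intervalIntegral.continuous_parametric_intervalIntegral_of_continuous'
  have hFc := hF.continuous
  have h2 : Continuous fun p : (ℂ × ℂ) × ℝ => circleMap 0 1 p.2 :=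
    (continuous_circleMap 0 1).comp continuous_snd
  refine (h2.mul continuous_const).mul ((continuous_const.div (h2.pow 2) ?_).mul ?_)
  · intro p
    exact pow_ne_zero 2 (pa_circ_ne _)
  · exact hFc.comp ((continuous_fst.comp continuous_fst).prodMk
      ((continuous_snd.comp continuous_fst).add h2))

lemma pa_diff {F : ℂ × ℂ → ℂ} (hF : Differentiable ℂ F) (w : ℂ) :
    Differentiable ℂ (fun x => deriv (fun t => F (x, t)) w) := by
  have h1 : (fun x : ℂ => deriv (fun t => F (x, t)) w) =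
      fun x : ℂ => (2 * Real.pi * Complex.I)⁻¹ *
      ∫ θ in (0 : ℝ)..2 * Real.pi, (circleMap 0 1 θ * Complex.I) *
        ((1 / circleMap 0 1 θ ^ 2) * F (x, w + circleMap 0 1 θ)) := by
    funext x
    exact pa_cauchy hF x w
  rw [h1, ← differentiableOn_univ]
  apply DifferentiableOn.const_mul
  apply pa_hol isOpen_univ
  · have h2 : Continuous fun p : ℂ × ℝ => circleMap 0 1 p.2 :=
      (continuous_circleMap 0 1).comp continuous_snd
    apply Continuous.continuousOn
    refine (h2.mul continuous_const).mul ((continuous_const.div (h2.pow 2) ?_).mul ?_)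
    · intro p
      exact pow_ne_zero 2 (pa_circ_ne _)
    · exact hF.continuous.comp (continuous_fst.prodMk (continuous_const.add h2))
  · intro θ
    apply Differentiable.differentiableOn
    apply Differentiable.const_mul
    apply Differentiable.const_mul
    exact hF.comp (by fun_prop)
  · positivity

/-- The integrals of the logarithmic derivative are holomorphic. -/
lemma pa_int {F H : ℂ × ℂ → ℂ} {x₀ y₀ : ℂ} {r R : ℝ} (hF : Differentiable ℂ F)
    (hH : Differentiable ℂ H) (hR : 0 < R)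
    (hne : ∀ x ∈ ball x₀ r, ∀ y ∈ sphere y₀ R, F (x, y) ≠ 0) :
    DifferentiableOn ℂ (fun x => ∮ w in C(y₀, R), H (x, w) *
      (deriv (fun t => F (x, t)) w / F (x, w))) (ball x₀ r) := by
  unfold circleIntegral
  apply pa_hol isOpen_ball
  · have h2 : Continuous fun p : ℂ × ℝ => circleMap y₀ R p.2 :=
      (continuous_circleMap y₀ R).comp continuous_snd
    have h3 : Continuous fun p : ℂ × ℝ => circleMap 0 R p.2 :=
      (continuous_circleMap 0 R).comp continuous_snd
    have h4 : Continuous fun p : ℂ × ℝ => (p.1, circleMap y₀ R p.2) := continuous_fst.prodMk h2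
    have h5 : Function.uncurry (fun (x : ℂ) (θ : ℝ) => deriv (circleMap y₀ R) θ •
        (H (x, circleMap y₀ R θ) * (deriv (fun t => F (x, t)) (circleMap y₀ R θ) /
          F (x, circleMap y₀ R θ)))) = fun p : ℂ × ℝ => (circleMap 0 R p.2 * Complex.I) *
        (H (p.1, circleMap y₀ R p.2) * (deriv (fun t => F (p.1, t)) (circleMap y₀ R p.2) /
          F (p.1, circleMap y₀ R p.2))) := by
      funext p
      simp only [Function.uncurry, deriv_circleMap, smul_eq_mul]
    rw [h5]
    refine ((h3.mul continuous_const).continuousOn).mul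
      (((hH.continuous.comp h4).continuousOn).mul (ContinuousOn.div ?_ ?_ ?_))
    · exact ((pa_cont hF).comp h4).continuousOn
    · exact (hF.continuous.comp h4).continuousOn
    · rintro ⟨x, θ⟩ ⟨hx, -⟩
      exact hne x hx _ (circleMap_mem_sphere y₀ hR.le θ)
  · intro θ
    change DifferentiableOn ℂ (fun x => deriv (circleMap y₀ R) θ *
      (H (x, circleMap y₀ R θ) * (deriv (fun t => F (x, t)) (circleMap y₀ R θ) /
        F (x, circleMap y₀ R θ)))) (ball x₀ r)
    apply DifferentiableOn.const_mul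
    apply DifferentiableOn.mul
    · exact (hH.comp (by fun_prop)).differentiableOn
    · apply DifferentiableOn.div
      · exact (pa_diff hF _).differentiableOn
      · exact (hF.comp (by fun_prop)).differentiableOn
      · intro x hx
        exact hne x hx _ (circleMap_mem_sphere y₀ hR.le θ)
  · positivity

theorem p_pa : S_re → S_pa := by
  intro hre F x₀ y₀ r R hF hR hne
  have h2pi : (2 * Real.pi * Complex.I : ℂ) ≠ 0 := Complex.two_pi_I_ne_zero
  rcases le_or_gt r 0 with hr | hr
  · have hempty : ball x₀ r = ∅ := ball_eq_empty.2 hr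
    refine ⟨0, fun _ _ => 0, ?_, ?_, ?_⟩
    · intro x hx
      rw [hempty] at hx
      exact absurd hx (Set.notMem_empty x)
    · intro x hx
      rw [hempty] at hx
      exact absurd hx (Set.notMem_empty x)
    · intro H _ x hx
      rw [hempty] at hx
      exact absurd hx (Set.notMem_empty x)
  have key : ∀ x ∈ ball x₀ r, ∃ (m : ℕ) (z : Fin m → ℂ), (∀ i, z i ∈ ball y₀ R) ∧
      (∀ w ∈ closedBall y₀ R, F (x, w) = 0 ↔ ∃ i, z i = w) ∧
      ∀ H : ℂ × ℂ → ℂ, Differentiable ℂ H → ∑ i, H (x, z i) =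
        (2 * Real.pi * Complex.I)⁻¹ * ∮ w in C(y₀, R), H (x, w) *
          (deriv (fun t => F (x, t)) w / F (x, w)) := by
    intro x hx
    obtain ⟨m, z, h1, h2, h3⟩ := hre (fun t => F (x, t)) y₀ R (hF.comp (by fun_prop)) hR
      (fun w hw => hne x hx w hw)
    refine ⟨m, z, h1, h2, ?_⟩
    intro H hH
    have h4 := h3 (fun t => H (x, t)) (hH.comp (by fun_prop))
    rw [h4, ← mul_assoc, inv_mul_cancel₀ h2pi, one_mul]
  choose m z hz1 hz2 hz3 using key
  -- the number of roots is constant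
  have hI : DifferentiableOn ℂ (fun x => ∮ w in C(y₀, R), (fun _ : ℂ × ℂ => (1 : ℂ)) (x, w) *
      (deriv (fun t => F (x, t)) w / F (x, w))) (ball x₀ r) :=
    pa_int hF (differentiable_const _) hR hne
  have hφ : ContinuousOn (fun x => ((2 * Real.pi * Complex.I)⁻¹ * ∮ w in C(y₀, R),
      (fun _ : ℂ × ℂ => (1 : ℂ)) (x, w) * (deriv (fun t => F (x, t)) w / F (x, w))).re)
      (ball x₀ r) :=
    Complex.continuous_re.comp_continuousOn (continuousOn_const.mul hI.continuousOn)
  have hφm : ∀ x (hx : x ∈ ball x₀ r), ((2 * Real.pi * Complex.I)⁻¹ * ∮ w in C(y₀, R),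
      (fun _ : ℂ × ℂ => (1 : ℂ)) (x, w) * (deriv (fun t => F (x, t)) w / F (x, w))).re =
      m x hx := by
    intro x hx
    rw [← hz3 x hx (fun _ => 1) (differentiable_const _)]
    simp
  have hpre : IsPreconnected (ball x₀ r) := (convex_ball x₀ r).isPreconnected
  have hx₀ : x₀ ∈ ball x₀ r := mem_ball_self hr
  have hlt : ∀ x (hx : x ∈ ball x₀ r) x' (hx' : x' ∈ ball x₀ r), ¬ m x hx < m x' hx' := by
    intro x hx x' hx' hlt
    have h1 := hpre.intermediate_value hx hx' hφ
    have h2 : (m x hx : ℝ) + 1 / 2 ∈ Set.Icc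
        (((2 * Real.pi * Complex.I)⁻¹ * ∮ w in C(y₀, R),
          (fun _ : ℂ × ℂ => (1 : ℂ)) (x, w) *
            (deriv (fun t => F (x, t)) w / F (x, w))).re)
        (((2 * Real.pi * Complex.I)⁻¹ * ∮ w in C(y₀, R),
          (fun _ : ℂ × ℂ => (1 : ℂ)) (x', w) *
            (deriv (fun t => F (x', t)) w / F (x', w))).re) := by
      rw [hφm x hx, hφm x' hx']
      have h3 : (m x hx : ℝ) + 1 ≤ m x' hx' := by exact_mod_cast hlt
      constructor <;> linarith
    obtain ⟨y, hy, hy2⟩ := h1 h2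
    have hy3 := (hφm y hy).symm.trans hy2
    have h4 : (2 * m y hy : ℝ) = 2 * m x hx + 1 := by linarith
    have h5 : 2 * m y hy = 2 * m x hx + 1 := by exact_mod_cast h4
    omega
  have heq : ∀ x (hx : x ∈ ball x₀ r), m x hx = m x₀ hx₀ := by
    intro x hx
    have h1 := hlt x hx x₀ hx₀
    have h2 := hlt x₀ hx₀ x hx
    omega
  have key2 : ∀ x ∈ ball x₀ r, ∃ z : Fin (m x₀ hx₀) → ℂ, (∀ i, z i ∈ ball y₀ R) ∧
      (∀ w ∈ closedBall y₀ R, F (x, w) = 0 ↔ ∃ i, z i = w) ∧
      ∀ H : ℂ × ℂ → ℂ, Differentiable ℂ H → ∑ i, H (x, z i) =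
        (2 * Real.pi * Complex.I)⁻¹ * ∮ w in C(y₀, R), H (x, w) *
          (deriv (fun t => F (x, t)) w / F (x, w)) := by
    intro x hx
    rw [← heq x hx]
    exact ⟨z x hx, hz1 x hx, hz2 x hx, hz3 x hx⟩
  choose! Z hZ using key2
  refine ⟨m x₀ hx₀, Z, ?_, ?_, ?_⟩
  · intro x hx i
    exact (hZ x hx).1 i
  · intro x hx w hw
    exact (hZ x hx).2.1 w hw
  · intro H hH
    refine ((pa_int hF hH hR hne).const_mul (2 * Real.pi * Complex.I)⁻¹).congr ?_
    intro x hx
    exact (hZ x hx).2.2 H hH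

end Pool.Agent.MP_2f2443_an.IP
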