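import Pool.Agent.Lib.MP_2f2443_an.IP.Stm

/-!
# MP_2f2443_an, project IP: piece st
-/

set_option autoImplicit false

namespace Pool.Agent.MP_2f2443_an.IP

private theorem st_approx (τ : ℝ) (hτ : Irrational τ) (ε : ℝ) (hε : 0 < ε) :
    ∃ q : ℕ, 0 < q ∧ ∃ p : ℤ, (q : ℝ) * τ < p ∧ (p : ℝ) < q * τ + ε := by
  obtain ⟨n, hn⟩ := exists_nat_gt (1 / ε)
  have hn0 : (0 : ℝ) < n := lt_trans (by positivity) hn
  have hnpos : 0 < n := by exact_mod_cast hn0
  obtain ⟨j, k, hk, -, hjk⟩ := Real.exists_int_int_abs_mul_sub_le τ hnpos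
  have hkR : (0 : ℝ) < k := by exact_mod_cast hk
  have hirr : ∀ (a b : ℤ), 0 < a → (a : ℝ) * τ ≠ b := by
    intro a b ha hab
    have haR : (a : ℝ) ≠ 0 := by exact_mod_cast ha.ne'
    refine hτ ⟨(b : ℚ) / a, ?_⟩
    push_cast
    rw [← hab]
    field_simp
  have hsmall : (1 : ℝ) / (n + 1) < ε := by
    rw [div_lt_iff₀ (by positivity)]
    rw [div_lt_iff₀ hε] at hn
    nlinarith
  have hsmall1 : (1 : ℝ) / (n + 1) < 1 := by
    rw [div_lt_iff₀ (by positivity)]
    linarith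
  obtain ⟨hl, hr⟩ := abs_le.mp hjk
  rcases lt_or_gt_of_ne (hirr k j hk) with h | h
  · refine ⟨k.toNat, by omega, j, ?_, ?_⟩
    · have : ((k.toNat : ℤ) : ℝ) = k := by rw [Int.toNat_of_nonneg hk.le]
      have h' : (k.toNat : ℝ) = k := by exact_mod_cast this
      rw [h']
      exact h
    · have : ((k.toNat : ℤ) : ℝ) = k := by rw [Int.toNat_of_nonneg hk.le]
      have h' : (k.toNat : ℝ) = k := by exact_mod_cast this
      rw [h']
      linarith
  · -- δ = k τ - j > 0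
    set δ : ℝ := (k : ℝ) * τ - j with hδ
    have hδpos : 0 < δ := by rw [hδ]; linarith
    have hδ1 : δ < 1 := lt_of_le_of_lt hr hsmall1
    have hδε : δ < ε := lt_of_le_of_lt hr hsmall
    have h1δ : (1 : ℝ) ≤ 1 / δ := by
      rw [le_div_iff₀ hδpos]
      linarith
    have hm1 : 1 ≤ ⌊1 / δ⌋₊ := Nat.le_floor (by exact_mod_cast h1δ)
    set m : ℕ := ⌊1 / δ⌋₊ with hm
    have hmle : (m : ℝ) * δ ≤ 1 := by
      have := Nat.floor_le (le_trans zero_le_one h1δ)
      rw [← hm, le_div_iff₀ hδpos] at this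
      exact this
    have hmlt : (1 : ℝ) < (m + 1) * δ := by
      have := Nat.lt_floor_add_one (1 / δ)
      rw [← hm, div_lt_iff₀ hδpos] at this
      exact this
    have hne := hirr (m * k) (m * j + 1) (by positivity)
    have hcast : ((k.toNat : ℕ) : ℝ) = k := by
      have : ((k.toNat : ℤ) : ℝ) = k := by rw [Int.toNat_of_nonneg hk.le]
      exact_mod_cast this
    have hk0 : 0 < k.toNat := by omega
    refine ⟨m * k.toNat, Nat.mul_pos hm1 hk0, m * j + 1, ?_, ?_⟩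
    · push_cast
      rw [hcast]
      push_cast at hne
      rw [hδ] at hmle
      rcases lt_or_gt_of_ne hne with h2 | h2
      · exact h2
      · exfalso
        nlinarith
    · push_cast
      rw [hcast]
      rw [hδ] at hmlt hδε
      nlinarith

theorem p_st : S_st := by
  intro hor h₁ h₂ c₁ m₁ d₁ c₂ m₂ d₂ hlt τ r₁ r₂ hτ
  obtain ⟨ε, hε, hmin⟩ : ∃ ε > 0, ∀ x, h₁ x + ε ≤ h₂ x := by
    obtain ⟨x₀, -, hx₀⟩ := (isCompact_Icc : IsCompact (Set.Icc (0 : ℝ) 1)).exists_isMinOn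
      ⟨0, by simp⟩ ((c₂.sub c₁).continuousOn)
    refine ⟨h₂ x₀ - h₁ x₀, sub_pos.mpr (hlt x₀), ?_⟩
    intro x
    have hper : Function.Periodic (fun x => h₂ x - h₁ x) 1 := by
      intro y
      show h₂ (y + 1) - h₁ (y + 1) = h₂ y - h₁ y
      rw [d₁, d₂]
      ring
    obtain ⟨y, hy, hxy⟩ := hper.exists_mem_Ico₀ one_pos x
    have h1 : h₂ x₀ - h₁ x₀ ≤ h₂ y - h₁ y := hx₀ ⟨hy.1, hy.2.le⟩
    have h2 : h₂ x - h₁ x = h₂ y - h₁ y := hxy
    linarith
  obtain ⟨q, hq, p, hp1, hp2⟩ := st_approx τ hτ ε hε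
  obtain ⟨z, hz⟩ : ∃ z, z + p - ε < h₁^[q] z := by
    by_contra hcon
    push Not at hcon
    have hit : ∀ m : ℕ, h₁^[q * m] 0 ≤ m * (p - ε) := by
      intro m
      induction m with
      | zero => simp
      | succ m ih =>
        rw [Nat.mul_succ, Nat.add_comm, Function.iterate_add_apply]
        have := hcon (h₁^[q * m] 0)
        push_cast
        linarith
    have hr : ∀ m : ℕ, (m : ℝ) * (q * τ - p + ε) ≤ 1 := by
      intro m
      have h1 := (abs_le.mp (r₁ (q * m) 0)).1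
      have h2 := hit m
      push_cast at h1
      nlinarith
    have hpos : 0 < q * τ - p + ε := by linarith
    obtain ⟨m, hm⟩ := exists_nat_gt (1 / (q * τ - p + ε))
    rw [div_lt_iff₀ hpos] at hm
    linarith [hr m]
  obtain ⟨-, h⟩ := hor.2 h₂ c₂ m₂ d₂
  have h' := ((h τ r₂).2 q hq p).1 hp1 z
  have hcmp : ∀ n : ℕ, h₁^[n] z ≤ h₂^[n] z := by
    intro n
    induction n with
    | zero => simp
    | succ n ih =>
      rw [Function.iterate_succ_apply', Function.iterate_succ_apply']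
      exact le_trans (m₁.monotone ih) (hlt _).le
  obtain ⟨n, rfl⟩ : ∃ n, q = n + 1 := ⟨q - 1, by omega⟩
  rw [Function.iterate_succ_apply'] at h' hz
  have h3 := hmin (h₁^[n] z)
  have h4 := m₂.monotone (hcmp n)
  linarith

end Pool.Agent.MP_2f2443_an.IP
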