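import Pool.Agent.Lib.MP_2f2443_an.IP.Stm

/-!
# MP_2f2443_an, project IP: piece un
-/

set_option autoImplicit false

namespace Pool.Agent.MP_2f2443_an.IP

theorem p_un : S_un := by
  intro hst hcx k h₁ h₂ τ c₁ c₂ r₁ r₂ hτ
  by_cases hex : ∃ a, h₁ a = h₂ a
  · exact hcx k h₁ h₂ τ c₁ c₂ r₁ hτ hex
  · exfalso
    have hne : ∀ a, h₁ a ≠ h₂ a := fun a ha => hex ⟨a, ha⟩
    rcases lt_or_gt_of_ne (hne 0) with h0 | h0
    · have hlt : ∀ x, h₁ x < h₂ x := by
        intro x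
        by_contra hx
        have hx' : h₂ x ≤ h₁ x := not_lt.mp hx
        obtain ⟨c, hc⟩ : (0 : ℝ) ∈ Set.range fun y => h₁ y - h₂ y :=
          mem_range_of_exists_le_of_exists_ge (c₁.cont.sub c₂.cont) ⟨0, by simpa using h0.le⟩
            ⟨x, by simpa using hx'⟩
        exact hne c (sub_eq_zero.mp hc)
      exact hst h₁ h₂ c₁.cont c₁.mono c₁.deg c₂.cont c₂.mono c₂.deg hlt τ r₁ r₂ hτ
    · have hlt : ∀ x, h₂ x < h₁ x := by
        intro x
        by_contra hx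
        have hx' : h₁ x ≤ h₂ x := not_lt.mp hx
        obtain ⟨c, hc⟩ : (0 : ℝ) ∈ Set.range fun y => h₂ y - h₁ y :=
          mem_range_of_exists_le_of_exists_ge (c₂.cont.sub c₁.cont) ⟨0, by simpa using le_of_lt h0⟩
            ⟨x, by simpa using hx'⟩
        exact hne c (sub_eq_zero.mp hc).symm
      exact hst h₂ h₁ c₂.cont c₂.mono c₂.deg c₁.cont c₁.mono c₁.deg hlt τ r₂ r₁ hτ

end Pool.Agent.MP_2f2443_an.IP
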