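import Pool.Agent.Lib.MP_2f2443_an.IP.Stm

set_option autoImplicit false

namespace Pool.Agent.MP_2f2443_an.IP

private theorem vb_sin (w : ℂ) : (Real.exp |w.im| - 1) / 2 ≤ ‖Complex.sin w‖ := by
  have h1 : ‖Complex.exp (-w * Complex.I)‖ = Real.exp w.im := by
    rw [Complex.norm_exp]
    congr 1
    simp
  have h2 : ‖Complex.exp (w * Complex.I)‖ = Real.exp (-w.im) := by
    rw [Complex.norm_exp]
    congr 1
    simp
  have h3 : ‖Complex.sin w‖ =
      ‖Complex.exp (-w * Complex.I) - Complex.exp (w * Complex.I)‖ / 2 := by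
    rw [Complex.sin, norm_div, norm_mul, Complex.norm_I, mul_one]
    congr 1
    simp
  rw [h3]
  have h4 := abs_norm_sub_norm_le (Complex.exp (-w * Complex.I)) (Complex.exp (w * Complex.I))
  rw [h1, h2] at h4
  have h5 : Real.exp |w.im| - 1 ≤ |Real.exp w.im - Real.exp (-w.im)| := by
    rcases le_total 0 w.im with h | h
    · rw [abs_of_nonneg h]
      have h6 : Real.exp (-w.im) ≤ 1 := by
        rw [Real.exp_le_one_iff]
        linarith
      exact le_trans (by linarith) (le_abs_self _)
    · rw [abs_of_nonpos h]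
      have h6 : Real.exp (w.im) ≤ 1 := by
        rw [Real.exp_le_one_iff]
        linarith
      exact le_trans (by linarith) (neg_le_abs _)
  linarith

theorem p_vb : S_vb := by
  intro k z
  have h := vb_sin (2 * Real.pi * z)
  have h1 : ((2 * Real.pi * z : ℂ)).im = 2 * Real.pi * z.im := by
    simp
  rw [h1, abs_mul, abs_of_pos (by positivity : (0 : ℝ) < 2 * Real.pi)] at h
  have h2 : ‖VC k z‖ = ‖k‖ / (2 * Real.pi) * ‖Complex.sin (2 * Real.pi * z)‖ := by
    unfold VC
    rw [norm_mul, norm_div]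
    congr 2
    rw [norm_mul]
    simp [abs_of_pos Real.pi_pos]
  rw [h2]
  have h3 : ‖k‖ / (4 * Real.pi) * (Real.exp (2 * Real.pi * |z.im|) - 1) =
      ‖k‖ / (2 * Real.pi) * ((Real.exp (2 * Real.pi * |z.im|) - 1) / 2) := by
    field_simp
    ring
  rw [h3]
  exact mul_le_mul_of_nonneg_left h (by positivity)

end Pool.Agent.MP_2f2443_an.IP
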