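import Pool.Agent.Lib.MP_2f2443_an.IP.Stm

/-!
# MP_2f2443_an, project IP: piece wa
-/

set_option autoImplicit false

namespace Pool.Agent.MP_2f2443_an.IP

open Filter Topology

/-- A map commuting with `+1` commutes with the integer translations. -/
private theorem wa_int (h : ℝ → ℝ) (hd : ∀ x, h (x + 1) = h x + 1) (m : ℤ) (x : ℝ) :
    h (x + (m : ℝ)) = h x + (m : ℝ) := by
  induction m using Int.induction_on generalizing x with
  | zero => simp
  | succ i ih =>
    have h1 : x + (((i : ℤ) + 1 : ℤ) : ℝ) = (x + ((i : ℤ) : ℝ)) + 1 := by push_cast; ring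
    rw [h1, hd, ih]; push_cast; ring
  | pred i ih =>
    have h1 : x + ((-(i : ℤ) : ℤ) : ℝ) = (x + ((-(i : ℤ) - 1 : ℤ) : ℝ)) + 1 := by
      push_cast; ring
    have h2 := ih x
    rw [h1, hd] at h2
    push_cast at h2 ⊢
    linarith

private theorem wa_int_iter (h : ℝ → ℝ) (hd : ∀ x, h (x + 1) = h x + 1) (n : ℕ) (m : ℤ) (x : ℝ) :
    h^[n] (x + (m : ℝ)) = h^[n] x + (m : ℝ) := by
  induction n generalizing x with
  | zero => simp
  | succ n ih =>
    rw [Function.iterate_succ_apply, Function.iterate_succ_apply, wa_int h hd, ih]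

/-- The iterates of `g = h^q - p`. -/
private theorem wa_iter (h : ℝ → ℝ) (hd : ∀ x, h (x + 1) = h x + 1) (q : ℕ) (p : ℤ) (n : ℕ)
    (x : ℝ) : (fun x => h^[q] x - (p : ℝ))^[n] x = h^[q * n] x - (n : ℝ) * (p : ℝ) := by
  induction n with
  | zero => simp
  | succ n ih =>
    rw [Function.iterate_succ_apply', ih]
    have h1 : h^[q * n] x - (n : ℝ) * (p : ℝ) = h^[q * n] x + ((-((n : ℤ) * p) : ℤ) : ℝ) := by
      push_cast; ring
    have h2 : q * (n + 1) = q + q * n := by ring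
    rw [h1, wa_int_iter h hd, h2, Function.iterate_add_apply]
    push_cast; ring

/-- Fixed point below `u`. -/
private theorem wa_fix (G : ℝ → ℝ) (hd : ∀ x, G (x + 1) = G x + 1) (hf : ∃ x, G x = x) (u : ℝ) :
    ∃ x, G x = x ∧ x ≤ u ∧ u < x + 1 := by
  obtain ⟨x₁, h1⟩ := hf
  refine ⟨x₁ + ((⌊u - x₁⌋ : ℤ) : ℝ), ?_, ?_, ?_⟩
  · rw [wa_int G hd, h1]
  · have := Int.floor_le (u - x₁); linarith
  · have := Int.lt_floor_add_one (u - x₁); linarith

/-- The displacement of a map with fixed points is less than `1`. -/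
private theorem wa_disp (G : ℝ → ℝ) (hm : StrictMono G) (hd : ∀ x, G (x + 1) = G x + 1)
    (hf : ∃ x, G x = x) (u : ℝ) : |G u - u| < 1 := by
  obtain ⟨x, h1, h2, h3⟩ := wa_fix G hd hf u
  have h4 : G x ≤ G u := hm.monotone h2
  have h5 : G u < G (x + 1) := hm h3
  rw [hd, h1] at h5
  rw [h1] at h4
  rw [abs_lt]
  constructor <;> linarith

/-- The core of the argument. -/
private theorem wa_core (G : ℝ → ℝ) (hm : StrictMono G) (hd : ∀ x, G (x + 1) = G x + 1)
    (hf : ∃ x, G x = x) (u δ ε : ℝ) (hε : 2 * ε < δ) (hδ : 0 < δ) (hu : u + δ < G u) (n : ℕ) (hn : 0 < n)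
    (M : ℤ) (hM : |G^[n] u - (u + (M : ℝ))| < 2 * ε) (q : ℕ) (hq : 0 < q) (m' : ℤ)
    (hD1 : δ < G^[n + 1] u - G^[n] u - (q : ℝ) * (m' : ℝ))
    (hD2 : G^[n + 1] u - G^[n] u - (q : ℝ) * (m' : ℝ) < 1) : False := by
  obtain ⟨x, h1, h2, h3⟩ := wa_fix G hd hf u
  have hub : ∀ j : ℕ, G^[j] u < x + 1 := by
    intro j
    induction j with
    | zero => simpa using h3
    | succ j ih =>
      rw [Function.iterate_succ_apply']
      have := hm ih
      rw [hd, h1] at this
      exact this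
  have hstep : ∀ j : ℕ, G^[j] u < G^[j + 1] u := by
    intro j
    induction j with
    | zero => simp; linarith
    | succ j ih =>
      rw [Function.iterate_succ_apply', Function.iterate_succ_apply' G (j + 1)]
      exact hm ih
  have hmono : StrictMono fun j : ℕ => G^[j] u := strictMono_nat_of_lt_succ hstep
  have hGn : G u ≤ G^[n] u := by
    have := hmono.monotone (show 1 ≤ n from hn)
    simpa using this
  rw [abs_lt] at hM
  have hM1 : (0 : ℝ) < (M : ℝ) := by linarith [hM.2]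
  have hM2 : (1 : ℤ) ≤ M := by
    have : (0 : ℤ) < M := by exact_mod_cast hM1
    omega
  have hM3 : (1 : ℝ) ≤ (M : ℝ) := by exact_mod_cast hM2
  have hDpos := hstep n
  have hDlt : G^[n + 1] u - G^[n] u < 1 := by
    have := hub (n + 1)
    linarith
  have hqm : |(q : ℝ) * (m' : ℝ)| < 1 := by
    rw [abs_lt]; constructor <;> linarith
  have hm0 : m' = 0 := by
    have h5 : |(q : ℤ) * m'| < 1 := by
      have : ((|(q : ℤ) * m'| : ℤ) : ℝ) < ((1 : ℤ) : ℝ) := by
        push_cast; exact_mod_cast hqm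
      exact_mod_cast this
    have h6 : (q : ℤ) * m' = 0 := Int.abs_lt_one_iff.mp h5
    rcases mul_eq_zero.mp h6 with h7 | h7
    · exfalso; have : q = 0 := by exact_mod_cast h7
      omega
    · exact h7
  rw [hm0, Int.cast_zero, mul_zero, sub_zero] at hD1
  have := hub (n + 1)
  linarith [hM.1]

/-- `f^q (x + m, y + m') = f^q (x, y) + (m + q m', m')`. -/
private theorem wa_shift (k : ℝ) (q : ℕ) (P : ℝ × ℝ) (m m' : ℤ) :
    (SMR k)^[q] (P.1 + (m : ℝ), P.2 + (m' : ℝ)) =
      (((SMR k)^[q] P).1 + (m : ℝ) + (q : ℝ) * (m' : ℝ), ((SMR k)^[q] P).2 + (m' : ℝ)) := by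
  have hV : ∀ (x : ℝ) (j : ℤ), VR k (x + (j : ℝ)) = VR k x := by
    intro x j
    unfold VR
    have : 2 * Real.pi * (x + (j : ℝ)) = 2 * Real.pi * x + (j : ℝ) * (2 * Real.pi) := by ring
    rw [this, Real.sin_add_int_mul_two_pi]
  induction q with
  | zero => simp
  | succ q ih =>
    rw [Function.iterate_succ_apply', ih, Function.iterate_succ_apply']
    set Q := (SMR k)^[q] P with hQ
    unfold SMR
    have h1 : Q.1 + (m : ℝ) + (q : ℝ) * (m' : ℝ) + (Q.2 + (m' : ℝ)) =
        Q.1 + Q.2 + ((m + (q : ℤ) * m' + m' : ℤ) : ℝ) := by push_cast; ring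
    ext
    · simp only []; push_cast; ring
    · simp only []
      rw [h1, hV]; ring

private theorem wa_cont (k : ℝ) (q : ℕ) : Continuous ((SMR k)^[q]) := by
  apply Continuous.iterate
  unfold SMR VR
  fun_prop

theorem p_wa : S_wa := by
  intro hfi hor hpr k hk q hq p W hWo hWn hall
  -- the first coordinate of the iterates on a circle
  have hcirc : ∀ (h : ℝ → ℝ), Circ k h → ∀ P : ℝ × ℝ, h P.1 = P.1 + P.2 → ∀ n : ℕ,
      (SMR k)^[n] P = (h^[n] P.1, h^[n + 1] P.1 - h^[n] P.1) := by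
    intro h hh P hP n
    have h1 := hor.1 k h hh n P.1
    have h2 : (P.1, h P.1 - P.1) = P := by
      ext
      · rfl
      · simp only []; rw [hP]; ring
    rw [h2] at h1
    exact h1
  -- fixed points
  have hqr : (q : ℝ) ≠ 0 := by exact_mod_cast hq.ne'
  have hfix : ∀ (h : ℝ → ℝ), Circ k h → HasRot h ((p : ℝ) / q) →
      ∃ x, h^[q] x - (p : ℝ) = x := by
    intro h hh hr
    have h1 := (hor.2 h hh.cont hh.mono hh.deg).2 _ hr
    obtain ⟨x, hx⟩ := ((h1.2 q hq p).2.2) (by field_simp)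
    exact ⟨x, by rw [hx]; ring⟩
  -- the point `P₀`
  obtain ⟨P₀, hP₀W, hP₀⟩ : ∃ P₀ ∈ W, ((SMR k)^[q] P₀).1 ≠ P₀.1 + (p : ℝ) := by
    by_contra hcon
    push Not at hcon
    obtain ⟨w, hw⟩ := hWn
    obtain ⟨r, hr, hball⟩ := Metric.isOpen_iff.mp hWo w hw
    have hfin := hfi k hk q hq p 0 (Metric.ball w r) Metric.isBounded_ball
    have hne : (𝓝[≠] w).NeBot := Module.punctured_nhds_neBot ℝ (ℝ × ℝ) w
    have hinf : (Metric.ball w r).Infinite := infinite_of_mem_nhds w (Metric.ball_mem_nhds w hr)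
    refine hinf (hfin.subset ?_)
    intro P hP
    refine ⟨hP, ?_⟩
    obtain ⟨h, hh, hhP, hrot⟩ := hall P (hball hP)
    have h1 := hcirc h hh P hhP q
    have h2 := hcon P (hball hP)
    rw [h1] at h2
    simp only [] at h2
    rw [h1]
    have h3 : h^[q + 1] P.1 = h P.1 + (p : ℝ) := by
      rw [Function.iterate_succ_apply', h2, wa_int h hh.deg]
    rw [h3, h2, hhP]
    ext
    · rfl
    · simp only []; push_cast; ring
  -- sign
  obtain ⟨s, hs, hsP⟩ : ∃ s : ℤ, (s = 1 ∨ s = -1) ∧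
      0 < (s : ℝ) * (((SMR k)^[q] P₀).1 - P₀.1 - (p : ℝ)) := by
    rcases lt_or_gt_of_ne hP₀ with h | h
    · exact ⟨-1, Or.inr rfl, by push_cast; linarith⟩
    · exact ⟨1, Or.inl rfl, by push_cast; linarith⟩
  have hss : (s : ℝ) * (s : ℝ) = 1 := by
    rcases hs with h | h <;> rw [h] <;> norm_num
  have habs : |(s : ℝ)| = 1 := by
    rcases hs with h | h <;> rw [h] <;> norm_num
  set Φ : ℝ × ℝ → ℝ := fun P => (s : ℝ) * (((SMR k)^[q] P).1 - P.1 - (p : ℝ)) with hΦ
  have hΦc : Continuous Φ := by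
    have := wa_cont k q
    fun_prop
  set δ := Φ P₀ / 2 with hδ
  have hδ0 : 0 < δ := by rw [hδ]; exact half_pos hsP
  have hopen : IsOpen (W ∩ {P | δ < Φ P}) := hWo.inter (isOpen_lt continuous_const hΦc)
  have hmem : P₀ ∈ W ∩ {P | δ < Φ P} := ⟨hP₀W, by
    change δ < Φ P₀
    rw [hδ]; exact half_lt_self hsP⟩
  obtain ⟨r, hr, hball⟩ := Metric.isOpen_iff.mp hopen P₀ hmem
  set ε := min r (δ / 4) with hεdef
  have hε0 : 0 < ε := lt_min hr (by linarith)
  have hε1 : 2 * ε < δ := by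
    have : ε ≤ δ / 4 := min_le_right _ _
    linarith
  have hW' : ∀ P ∈ Metric.ball P₀ ε, P ∈ W ∧ δ < Φ P := by
    intro P hP
    have := hball (Metric.ball_subset_ball (min_le_left _ _) hP)
    exact ⟨this.1, this.2⟩
  obtain ⟨P, hP, n, hn, m, m', P', hP', hrec⟩ :=
    hpr k q hq (Metric.ball P₀ ε) Metric.isOpen_ball ⟨P₀, Metric.mem_ball_self hε0⟩
  obtain ⟨h, hh, hhP, hrot⟩ := hall P (hW' P hP).1
  obtain ⟨h', hh', hhP', hrot'⟩ := hall P' (hW' P' hP').1
  have hx : |P'.1 - P.1| < 2 * ε := by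
    have h1 : dist P' P < ε + ε := by
      calc dist P' P ≤ dist P' P₀ + dist P₀ P := dist_triangle _ _ _
        _ < ε + ε := by
          apply add_lt_add
          · exact hP'
          · rw [dist_comm]; exact hP
    have h2 : dist P'.1 P.1 ≤ dist P' P := by
      rw [Prod.dist_eq]; exact le_max_left _ _
    rw [Real.dist_eq] at h2
    linarith
  -- the map `G`
  set g : ℝ → ℝ := fun x => h^[q] x - (p : ℝ) with hg
  set G : ℝ → ℝ := fun v => (s : ℝ) * g ((s : ℝ) * v) with hG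
  have hgm : StrictMono g := by
    intro a b hab
    have := hh.mono.iterate q hab
    simp only [hg]; linarith
  have hgd : ∀ x, g (x + 1) = g x + 1 := by
    intro x
    have := wa_int_iter h hh.deg q 1 x
    push_cast at this
    simp only [hg]; rw [this]; ring
  have hGm : StrictMono G := by
    intro a b hab
    simp only [hG]
    rcases hs with h1 | h1
    · rw [h1]; push_cast; simp only [one_mul]; exact hgm hab
    · rw [h1]; push_cast; simp only [neg_mul, one_mul]
      have := hgm (neg_lt_neg hab)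
      linarith
  have hgds : ∀ x, g (x - 1) = g x - 1 := by
    intro x
    have := hgd (x - 1)
    rw [sub_add_cancel] at this
    linarith
  have hGd : ∀ x, G (x + 1) = G x + 1 := by
    intro x
    simp only [hG]
    rcases hs with h1 | h1
    · rw [h1]; push_cast; simp only [one_mul]; exact hgd x
    · rw [h1]; push_cast; simp only [neg_mul, one_mul]
      have h2 : -(x + 1) = -x - 1 := by ring
      rw [h2, hgds]; ring
  have hGf : ∃ x, G x = x := by
    obtain ⟨x, hx⟩ := hfix h hh hrot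
    refine ⟨(s : ℝ) * x, ?_⟩
    simp only [hG]
    rw [← mul_assoc, hss, one_mul]
    simp only [hg]
    rw [hx]
  have hGiter : ∀ j : ℕ, G^[j] ((s : ℝ) * P.1) =
      (s : ℝ) * (((SMR k)^[q * j] P).1 - (j : ℝ) * (p : ℝ)) := by
    intro j
    have h1 : G^[j] ((s : ℝ) * P.1) = (s : ℝ) * g^[j] P.1 := by
      induction j with
      | zero => simp
      | succ j ih =>
        rw [Function.iterate_succ_apply', ih, Function.iterate_succ_apply']
        simp only [hG]
        rw [← mul_assoc, hss, one_mul]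
    rw [h1, hg, wa_iter h hh.deg, hcirc h hh P hhP]
  have hGn : G^[n] ((s : ℝ) * P.1) = (s : ℝ) * (P'.1 + (m : ℝ) - (n : ℝ) * (p : ℝ)) := by
    rw [hGiter, hrec]
  have hGn1 : G^[n + 1] ((s : ℝ) * P.1) =
      (s : ℝ) * (((SMR k)^[q] P').1 + (m : ℝ) + (q : ℝ) * (m' : ℝ) - ((n : ℝ) + 1) * (p : ℝ)) := by
    rw [hGiter]
    have h1 : q * (n + 1) = q + q * n := by ring
    rw [h1, Function.iterate_add_apply, hrec, wa_shift]
    push_cast; ring
  have hD' : |((SMR k)^[q] P').1 - P'.1 - (p : ℝ)| < 1 := by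
    have h1 := wa_disp (fun x => h'^[q] x - (p : ℝ)) (by
      intro a b hab
      have := hh'.mono.iterate q hab
      simp only []; linarith) (by
      intro x
      have := wa_int_iter h' hh'.deg q 1 x
      push_cast at this
      rw [this]; ring) (hfix h' hh' hrot') P'.1
    rw [hcirc h' hh' P' hhP']
    have h2 : h'^[q] P'.1 - P'.1 - (p : ℝ) = h'^[q] P'.1 - (p : ℝ) - P'.1 := by ring
    rw [h2]
    exact h1
  have hΦP := (hW' P hP).2
  have hΦP' := (hW' P' hP').2
  have hG1 : G ((s : ℝ) * P.1) = (s : ℝ) * (((SMR k)^[q] P).1 - (p : ℝ)) := by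
    have := hGiter 1
    simpa using this
  refine wa_core G hGm hGd hGf ((s : ℝ) * P.1) δ ε hε1 hδ0 ?_ n hn (s * (m - (n : ℤ) * p)) ?_ q hq
    (s * m') ?_ ?_
  · rw [hG1]
    simp only [hΦ] at hΦP
    have : (s : ℝ) * (((SMR k)^[q] P).1 - P.1 - (p : ℝ)) =
      (s : ℝ) * (((SMR k)^[q] P).1 - (p : ℝ)) - (s : ℝ) * P.1 := by ring
    rw [this] at hΦP
    linarith
  · rw [hGn]
    have : (s : ℝ) * (P'.1 + (m : ℝ) - (n : ℝ) * (p : ℝ)) -
        ((s : ℝ) * P.1 + ((s * (m - (n : ℤ) * p) : ℤ) : ℝ)) = (s : ℝ) * (P'.1 - P.1) := by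
      push_cast; ring
    rw [this, abs_mul, habs, one_mul]
    exact hx
  · rw [hGn, hGn1]
    simp only [hΦ] at hΦP'
    refine lt_of_lt_of_eq hΦP' ?_
    push_cast; ring
  · rw [hGn, hGn1]
    have h1 : (s : ℝ) * (((SMR k)^[q] P').1 - P'.1 - (p : ℝ)) < 1 := by
      refine lt_of_le_of_lt (le_abs_self _) ?_
      rw [abs_mul, habs, one_mul]
      exact hD'
    refine lt_of_eq_of_lt ?_ h1
    push_cast; ring

end Pool.Agent.MP_2f2443_an.IP
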