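import Pool.Agent.Lib.MP_2f2443_an.IP.Stm

/-!
# MP_2f2443_an, project IP: piece `en` (the iterates are entire, translations)
-/

set_option autoImplicit false

namespace Pool.Agent.MP_2f2443_an.IP

open Filter Topology

theorem en_smc (k : ℂ) : Differentiable ℂ (SMC k) := by
  have h1 : Differentiable ℂ fun P : ℂ × ℂ => P.1 + P.2 := differentiable_fst.add differentiable_snd
  have h2 : Differentiable ℂ fun P : ℂ × ℂ => VC k (P.1 + P.2) := by
    unfold VC
    exact (Complex.differentiable_sin.comp (h1.const_mul _)).const_mul _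
  exact h1.prodMk (differentiable_snd.add h2)

theorem en_iter (k : ℂ) (n : ℕ) : Differentiable ℂ ((SMC k)^[n]) := (en_smc k).iterate n

theorem en_VC (k z : ℂ) (j : ℤ) : VC k (z + j) = VC k z := by
  unfold VC
  have h : 2 * (Real.pi : ℂ) * (z + j) = 2 * Real.pi * z + j * (2 * Real.pi) := by ring
  rw [h, Complex.sin_add_int_mul_two_pi]

theorem en_tr1 (k : ℂ) (P : ℂ × ℂ) (j : ℤ) :
    SMC k (P.1 + j, P.2) = ((SMC k P).1 + j, (SMC k P).2) := by
  unfold SMC
  have h : P.1 + (j : ℂ) + P.2 = (P.1 + P.2) + j := by ring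
  simp only [h, en_VC]

theorem en_tr (k : ℂ) (n : ℕ) (P : ℂ × ℂ) (j : ℤ) :
    (SMC k)^[n] (P.1 + j, P.2) = (((SMC k)^[n] P).1 + j, ((SMC k)^[n] P).2) := by
  induction n with
  | zero => rfl
  | succ n ih =>
    rw [Function.iterate_succ_apply', Function.iterate_succ_apply', ih]
    exact en_tr1 k _ j

theorem en_perC (k : ℂ) (q : ℕ) (p r : ℤ) : IsClosed (PerC k q p r) := by
  unfold PerC
  apply isClosed_eq
  · exact (en_iter k q).continuous
  · exact (continuous_fst.add continuous_const).prodMk (continuous_snd.add continuous_const)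

theorem en_perC_tr (k : ℂ) (q : ℕ) (p r : ℤ) (j : ℤ) (P : ℂ × ℂ) (hP : P ∈ PerC k q p r) :
    (P.1 + (j : ℂ), P.2) ∈ PerC k q p r := by
  have h1 : (SMC k)^[q] P = (P.1 + (p : ℂ), P.2 + (r : ℂ)) := hP
  show (SMC k)^[q] (P.1 + (j : ℂ), P.2) = (P.1 + (j : ℂ) + (p : ℂ), P.2 + (r : ℂ))
  rw [en_tr, h1]
  apply Prod.ext
  · show P.1 + (p : ℂ) + (j : ℂ) = P.1 + (j : ℂ) + (p : ℂ)
    ring
  · rfl

theorem p_en : S_en := by
  intro k
  have hd1 : ∀ n : ℕ, Differentiable ℂ fun P => ((SMC k)^[n] P).1 := fun n => (en_iter k n).fst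
  have hd2 : ∀ n : ℕ, Differentiable ℂ fun P => ((SMC k)^[n] P).2 := fun n => (en_iter k n).snd
  refine ⟨hd1, hd2, fun n P j => en_tr k n P j, ?_, ?_, ?_, ?_⟩
  · intro q p r
    refine ⟨isClosed_derivedSet _, ?_, ?_⟩
    · exact (isClosed_iff_derivedSet_subset _).1 (en_perC k q p r)
    · intro P hP j
      have hinj : Function.Injective (fun P : ℂ × ℂ => (P.1 + (j : ℂ), P.2)) := by
        intro P P' h
        have h1 := congrArg Prod.fst h
        have h2 := congrArg Prod.snd h
        exact Prod.ext (add_right_cancel h1) h2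
      have hcont : Continuous (fun P : ℂ × ℂ => (P.1 + (j : ℂ), P.2)) :=
        (continuous_fst.add continuous_const).prodMk continuous_snd
      have h1 := hP.map hcont.continuousAt hinj
      rw [Filter.map_principal] at h1
      refine h1.mono (Filter.principal_mono.2 ?_)
      rintro _ ⟨P', hP', rfl⟩
      exact en_perC_tr k q p r j P' hP'
  · intro q
    unfold psi
    refine continuous_finsetSum _ fun n _ => ?_
    have h2 : Continuous fun P => ((SMC k)^[n] P).2 := (hd2 n).continuous
    exact ((Complex.continuous_im.comp h2).pow 2).sub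
      (((Complex.continuous_re.comp h2).pow 2).div_const 2)
  · intro q P j
    unfold psi
    refine Finset.sum_congr rfl fun n _ => ?_
    rw [en_tr]
  · intro q Q
    constructor
    · unfold LL
      refine Differentiable.fun_sum fun n _ => ?_
      have h2 : Differentiable ℂ fun P => ((SMC k)^[n] P).2 - ((SMC k)^[n] Q).2 :=
        (hd2 n).sub_const _
      exact (h2.const_mul _).sub ((h2.pow 2).const_mul _)
    · unfold LL
      refine Finset.sum_eq_zero fun n _ => ?_
      ring

end Pool.Agent.MP_2f2443_an.IP
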