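import Pool.Agent.Lib.MP_2f2443_an.IP.Stm

set_option autoImplicit false

/-!
[IP pr]: Poincare recurrence on the torus.
-/

namespace Pool.Agent.MP_2f2443_an.IP

open Filter Topology MeasureTheory

/-- The force on the circle. -/
private theorem pr_per (k : ℝ) : Function.Periodic (fun x : ℝ => ((VR k x : ℝ) : UnitAddCircle)) 1 := by
  intro x
  simp only
  congr 1
  unfold VR
  rw [mul_add, mul_one, Real.sin_add_two_pi]

/-- The force on the circle. -/
private noncomputable def pr_V (k : ℝ) : UnitAddCircle → UnitAddCircle := (pr_per k).lift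

private theorem pr_V_coe (k x : ℝ) : pr_V k (x : UnitAddCircle) = ((VR k x : ℝ) : UnitAddCircle) :=
  (pr_per k).lift_coe x

private theorem pr_V_cont (k : ℝ) : Continuous (pr_V k) := by
  have h : Continuous (fun x : ℝ => ((VR k x : ℝ) : UnitAddCircle)) := by
    refine (AddCircle.continuous_mk' (1 : ℝ)).comp ?_
    unfold VR
    fun_prop
  exact h.quotient_lift _

/-- The map of the torus. -/
private noncomputable def pr_T (k : ℝ) (z : UnitAddCircle × UnitAddCircle) :
    UnitAddCircle × UnitAddCircle := (z.1 + z.2, z.2 + pr_V k (z.1 + z.2))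

/-- The projection. -/
private def pr_pi (z : ℝ × ℝ) : UnitAddCircle × UnitAddCircle := (↑z.1, ↑z.2)

private theorem pr_semi (k : ℝ) : Function.Semiconj pr_pi (SMR k) (pr_T k) := by
  intro z
  unfold pr_pi pr_T SMR
  simp only
  rw [AddCircle.coe_add, ← AddCircle.coe_add, pr_V_coe, ← AddCircle.coe_add]

private theorem pr_mp (k : ℝ) : MeasurePreserving (pr_T k) (volume.prod volume)
    (volume.prod volume) := by
  have h1 : MeasurePreserving (fun z : UnitAddCircle × UnitAddCircle => (z.1 + z.2, z.2))
      (volume.prod volume) (volume.prod volume) := measurePreserving_add_prod volume volume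
  have h2 : MeasurePreserving (fun z : UnitAddCircle × UnitAddCircle => (z.1, z.2 + pr_V k z.1))
      (volume.prod volume) (volume.prod volume) := by
    refine (MeasurePreserving.id volume).skew_product (g := fun a b => b + pr_V k a) ?_ ?_
    · exact (continuous_snd.add ((pr_V_cont k).comp continuous_fst)).measurable
    · exact Eventually.of_forall fun a => (measurePreserving_add_right volume (pr_V k a)).map_eq
  exact h2.comp h1

private theorem pr_int {a b : ℝ} (h : (a : UnitAddCircle) = b) : ∃ m : ℤ, a = b + m := by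
  have h1 := QuotientAddGroup.eq_iff_sub_mem.mp h
  obtain ⟨m, hm⟩ := AddSubgroup.mem_zmultiples_iff.mp h1
  refine ⟨m, ?_⟩
  rw [zsmul_eq_mul, mul_one] at hm
  linarith

theorem p_pr : S_pr := by
  intro k q hq W hW hne
  have hopen : IsOpen (pr_pi '' W) := by
    have h : IsOpenMap pr_pi :=
      IsOpenMap.prodMap QuotientAddGroup.isOpenMap_coe QuotientAddGroup.isOpenMap_coe
    exact h W hW
  have hpos : (volume.prod volume : Measure (UnitAddCircle × UnitAddCircle)) (pr_pi '' W) ≠ 0 :=
    (hopen.measure_pos _ (hne.image _)).ne'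
  have hc := ((pr_mp k).iterate q).conservative
  obtain ⟨x, ⟨P, hP, rfl⟩, n, hn, ⟨P', hP', he⟩⟩ :=
    hc.exists_mem_iterate_mem hopen.measurableSet.nullMeasurableSet hpos
  have h1 : ((pr_T k)^[q])^[n] (pr_pi P) = pr_pi ((SMR k)^[q * n] P) := by
    rw [← Function.iterate_mul]
    exact (((pr_semi k).iterate_right (q * n)) P).symm
  rw [h1] at he
  unfold pr_pi at he
  obtain ⟨m, hm⟩ := pr_int (congrArg Prod.fst he).symm
  obtain ⟨m', hm'⟩ := pr_int (congrArg Prod.snd he).symm
  exact ⟨P, hP, n, Nat.pos_of_ne_zero hn, m, m', P', hP', Prod.ext hm hm'⟩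

end Pool.Agent.MP_2f2443_an.IP
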