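import Pool.Agent.Lib.MP_2f2443_an.IP.Stm

/-!
# Residues: the sum of an entire function over the zeros in a disc
-/

set_option autoImplicit false

namespace Pool.Agent.MP_2f2443_an.IP

open Filter Topology

theorem re_an {f : ℂ → ℂ} (hf : Differentiable ℂ f) : AnalyticOnNhd ℂ f Set.univ :=
  fun z _ => hf.analyticAt z

/-- an entire function vanishing near a point vanishes -/
theorem re_zero {f : ℂ → ℂ} (hf : Differentiable ℂ f) {a : ℂ} (h : ∃ᶠ z in 𝓝[≠] a, f z = 0)
    (w : ℂ) : f w = 0 :=
  (re_an hf).eqOn_zero_of_preconnected_of_frequently_eq_zero isPreconnected_univ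
    (Set.mem_univ a) h (Set.mem_univ w)

theorem re_fin {f : ℂ → ℂ} (hf : Differentiable ℂ f) (w₀ : ℂ) (hw : f w₀ ≠ 0) (c : ℂ) (R : ℝ) :
    {w | w ∈ Metric.closedBall c R ∧ f w = 0}.Finite := by
  by_contra hinf
  obtain ⟨a, _, ha⟩ := Set.Infinite.exists_accPt_of_subset_isCompact hinf
    (isCompact_closedBall c R) (fun w h => h.1)
  rw [accPt_iff_frequently_nhdsNE] at ha
  exact hw (re_zero hf (ha.mono fun z hz => hz.2) w₀)

theorem re_dslope {f : ℂ → ℂ} (hf : Differentiable ℂ f) (a : ℂ) : Differentiable ℂ (dslope f a) := by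
  have h := (Complex.differentiableOn_dslope (f := f) (s := Set.univ) (c := a) univ_mem).2
    hf.differentiableOn
  rwa [differentiableOn_univ] at h

theorem re_dslope_iter {f : ℂ → ℂ} (hf : Differentiable ℂ f) (a : ℂ) (n : ℕ) :
    Differentiable ℂ ((Function.swap dslope a)^[n] f) := by
  induction n with
  | zero => exact hf
  | succ n ih =>
    rw [Function.iterate_succ_apply']
    exact re_dslope ih a

/-- factorisation -/
theorem re_fac (c : ℂ) (R : ℝ) (s : Finset ℂ) : ∀ f : ℂ → ℂ, Differentiable ℂ f →
    (∃ w, f w ≠ 0) → (∀ w ∈ Metric.closedBall c R, f w = 0 → w ∈ s) →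
    ∃ (m : ℕ) (z : Fin m → ℂ) (g : ℂ → ℂ), Differentiable ℂ g ∧
      (∀ w ∈ Metric.closedBall c R, g w ≠ 0) ∧ (∀ i, z i ∈ s) ∧
      ∀ w, f w = (∏ i, (w - z i)) * g w := by
  induction s using Finset.induction_on with
  | empty =>
    intro f hf _ h
    refine ⟨0, Fin.elim0, f, hf, ?_, fun i => i.elim0, fun w => by simp⟩
    intro w hw h0
    exact absurd (h w hw h0) (by simp)
  | insert a s _ ih =>
    intro f hf hne h
    obtain ⟨w₀, hw₀⟩ := hne
    obtain ⟨p, hp⟩ := hf.analyticAt a
    have hp0 : p ≠ 0 := by
      intro h0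
      have h1 := hp.locally_zero_iff.2 h0
      exact hw₀ (re_zero hf (h1.filter_mono nhdsWithin_le_nhds).frequently w₀)
    have h1 := hp.iterate_dslope_fslope_ne_zero hp0
    have h2 := hp.eq_pow_order_mul_iterate_dslope
    set n := p.order
    set g₁ := (Function.swap dslope a)^[n] f with hg₁
    have hd : Differentiable ℂ g₁ := re_dslope_iter hf a n
    obtain ⟨m, z, g, hg, hg0, hz, hprod⟩ := ih g₁ hd ⟨a, h1⟩ (by
      intro w hw h0
      have h3 : f w = 0 := by rw [h2 w, h0, smul_zero]
      rcases Finset.mem_insert.1 (h w hw h3) with h4 | h4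
      · exact absurd (h4 ▸ h0) h1
      · exact h4)
    refine ⟨n + m, Fin.append (fun _ => a) z, g, hg, hg0, ?_, ?_⟩
    · intro i
      refine Fin.addCases (fun i => ?_) (fun i => ?_) i
      · rw [Fin.append_left]
        exact Finset.mem_insert_self _ _
      · rw [Fin.append_right]
        exact Finset.mem_insert_of_mem (hz i)
    · intro w
      rw [h2 w, smul_eq_mul, hprod w, Fin.prod_univ_add]
      simp only [Fin.append_left, Fin.append_right, Finset.prod_const, Finset.card_univ,
        Fintype.card_fin]
      ring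

theorem p_re : S_re := by
  intro f c R hf hR hs
  have hne : ∃ w, f w ≠ 0 := by
    refine ⟨c + R, hs _ ?_⟩
    simp [abs_of_pos hR]
  obtain ⟨w₀, hw₀⟩ := hne
  have hfin := re_fin hf w₀ hw₀ c R
  obtain ⟨m, z, g, hg, hg0, hz, hprod⟩ := re_fac c R hfin.toFinset f hf ⟨w₀, hw₀⟩ (by
    intro w hw h0
    rw [Set.Finite.mem_toFinset]
    exact ⟨hw, h0⟩)
  have hzb : ∀ i, z i ∈ Metric.ball c R := by
    intro i
    have h1 := hz i
    rw [Set.Finite.mem_toFinset] at h1
    have h2 := h1.1
    rw [← Metric.ball_union_sphere] at h2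
    rcases h2 with h3 | h3
    · exact h3
    · exact absurd h1.2 (hs _ h3)
  refine ⟨m, z, hzb, ?_, ?_⟩
  · intro w hw
    rw [hprod w, mul_eq_zero, Finset.prod_eq_zero_iff]
    constructor
    · rintro (⟨i, -, hi⟩ | h0)
      · exact ⟨i, (sub_eq_zero.1 hi).symm⟩
      · exact absurd h0 (hg0 w hw)
    · rintro ⟨i, rfl⟩
      exact Or.inl ⟨i, Finset.mem_univ i, sub_self _⟩
  · intro h hh
    have hzw : ∀ w ∈ Metric.sphere c R, ∀ i, w - z i ≠ 0 := by
      intro w hw i h0
      have h1 := hzb i
      rw [← sub_eq_zero.1 h0, Metric.mem_ball, Metric.mem_sphere.1 hw] at h1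
      exact lt_irrefl _ h1
    have hlog : ∀ w ∈ Metric.sphere c R,
        deriv f w / f w = ∑ i, (w - z i)⁻¹ + deriv g w / g w := by
      intro w hw
      have e : f = fun w => (∏ i, (w - z i)) * g w := funext hprod
      have h1 : logDeriv f w = logDeriv (fun w => ∏ i, (w - z i)) w + logDeriv g w := by
        conv_lhs => rw [e]
        apply logDeriv_mul
        · exact Finset.prod_ne_zero_iff.2 fun i _ => hzw w hw i
        · exact hg0 w (Metric.sphere_subset_closedBall hw)
        · fun_prop
        · exact hg w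
      have h2 : logDeriv (fun w => ∏ i, (w - z i)) w = ∑ i, logDeriv (fun w => w - z i) w := by
        apply logDeriv_prod
        · intro i _
          exact hzw w hw i
        · intro i _
          fun_prop
      rw [h2] at h1
      rw [logDeriv_apply] at h1
      rw [h1, logDeriv_apply]
      congr 1
      apply Finset.sum_congr rfl
      intro i _
      rw [logDeriv_apply]
      simp
    have hcg : ContinuousOn (fun w => h w * (deriv g w / g w)) (Metric.sphere c R) := by
      apply hh.continuous.continuousOn.mul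
      exact hg.deriv.continuous.continuousOn.div hg.continuous.continuousOn
        fun w hw => hg0 w (Metric.sphere_subset_closedBall hw)
    have hcz : ∀ i, ContinuousOn (fun w => (w - z i)⁻¹ • h w) (Metric.sphere c R) := by
      intro i
      have h3 : ContinuousOn (fun w => (w - z i)⁻¹) (Metric.sphere c R) :=
        ContinuousOn.inv₀ (by fun_prop) fun w hw => hzw w hw i
      exact h3.mul hh.continuous.continuousOn
    have e1 : (∮ w in C(c, R), h w * (deriv f w / f w)) =
        ∮ w in C(c, R), (∑ i, (w - z i)⁻¹ • h w + h w * (deriv g w / g w)) := by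
      apply circleIntegral.integral_congr hR.le
      intro w hw
      show h w * (deriv f w / f w) = ∑ i, (w - z i)⁻¹ • h w + h w * (deriv g w / g w)
      rw [hlog w hw, mul_add, Finset.mul_sum]
      congr 1
      apply Finset.sum_congr rfl
      intro i _
      rw [smul_eq_mul, mul_comm]
    have hsum : CircleIntegrable (fun w => ∑ i, (w - z i)⁻¹ • h w) c R :=
      ContinuousOn.circleIntegrable hR.le (continuousOn_finsetSum _ fun i _ => hcz i)
    have hsum2 : (∮ w in C(c, R), ∑ i, (w - z i)⁻¹ • h w) =
        2 * Real.pi * Complex.I * ∑ i, h (z i) := by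
      rw [circleIntegral.integral_fun_sum fun i _ => (hcz i).circleIntegrable hR.le,
        Finset.mul_sum]
      apply Finset.sum_congr rfl
      intro i _
      rw [hh.differentiableOn.circleIntegral_sub_inv_smul (hzb i), smul_eq_mul]
    have hg1 : (∮ w in C(c, R), h w * (deriv g w / g w)) = 0 := by
      apply DiffContOnCl.circleIntegral_eq_zero hR.le
      apply DifferentiableOn.diffContOnCl
      have h3 : DifferentiableOn ℂ (fun w => h w * (deriv g w / g w)) (Metric.closedBall c R) := by
        apply hh.differentiableOn.mul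
        exact hg.deriv.differentiableOn.div hg.differentiableOn fun w hw => hg0 w hw
      exact h3.mono Metric.closure_ball_subset_closedBall
    rw [e1, circleIntegral.integral_add hsum (hcg.circleIntegrable hR.le), hsum2, hg1, add_zero]

end Pool.Agent.MP_2f2443_an.IP
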